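import Mathlib

open Set Real

namespace Pool.Agent.H.MP_8bcfe8_an

variable {H : Type*} [NormedAddCommGroup H] [InnerProductSpace ℝ H] [CompleteSpace H]

omit [CompleteSpace H] in
theorem ode_bound {Z h : ℝ → H} {a B s t : ℝ} (ha : 0 < a) (hst : s ≤ t)
    (hZ : ∀ r, HasDerivAt Z (h r - a • Z r) r) (hh : ∀ r ∈ Icc s t, ‖h r‖ ≤ B) :
    ‖Z t - exp (a * (s - t)) • Z s‖ ≤ B * (1 - exp (a * (s - t))) / a := by
  have he : ∀ r, HasDerivAt (fun r => exp (a * (r - t))) (exp (a * (r - t)) * a) r := by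
    intro r
    have := (((hasDerivAt_id r).sub_const t).const_mul a).exp
    simpa using this
  have hφ : ∀ r, HasDerivAt (fun r => exp (a * (r - t)) • Z r - exp (a * (s - t)) • Z s)
      (exp (a * (r - t)) • h r) r := by
    intro r
    have := ((he r).smul (hZ r)).sub_const (exp (a * (s - t)) • Z s)
    refine HasDerivAt.congr_deriv this ?_
    module
  have hB : ∀ r, HasDerivAt (fun r => B * (exp (a * (r - t)) - exp (a * (s - t))) / a)
      (B * exp (a * (r - t))) r := by
    intro r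
    have := (((he r).sub_const (exp (a * (s - t)))).const_mul B).div_const a
    refine HasDerivAt.congr_deriv this ?_
    field_simp
  have := image_norm_le_of_norm_deriv_right_le_deriv_boundary
    (f := fun r => exp (a * (r - t)) • Z r - exp (a * (s - t)) • Z s) (a := s) (b := t)
    (fun r _ => (hφ r).continuousAt.continuousWithinAt)
    (fun r _ => (hφ r).hasDerivWithinAt) (by simp) hB
    (fun r hr => by
      rw [norm_smul, Real.norm_eq_abs, abs_of_pos (exp_pos _), mul_comm]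
      exact mul_le_mul_of_nonneg_right (hh r ⟨hr.1, hr.2.le⟩) (exp_pos _).le)
    (x := t) ⟨hst, le_rfl⟩
  simpa using this

omit [CompleteSpace H] in
theorem ode_bound2 {Z h : ℝ → H} {a B s t : ℝ} (ha : 0 < a) (hst : s ≤ t)
    (hZ : ∀ r, HasDerivAt Z (h r - a • Z r) r) (hh : ∀ r ∈ Icc s t, ‖h r‖ ≤ B)
    (h0 : ‖Z s‖ ≤ B / a) : ‖Z t‖ ≤ B / a := by
  have h1 := ode_bound ha hst hZ hh
  have h2 : ‖Z t‖ ≤ ‖Z t - exp (a * (s - t)) • Z s‖ + ‖exp (a * (s - t)) • Z s‖ := by
    simpa using norm_add_le (Z t - exp (a * (s - t)) • Z s) (exp (a * (s - t)) • Z s)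
  rw [norm_smul, Real.norm_eq_abs, abs_of_pos (exp_pos _)] at h2
  have h3 := mul_le_mul_of_nonneg_left h0 (exp_pos (a * (s - t))).le
  have h4 : B * (1 - exp (a * (s - t))) / a + exp (a * (s - t)) * (B / a) = B / a := by
    field_simp; ring
  linarith

theorem ode_exists {g : ℝ → H} (hg : Continuous g) (a s : ℝ) (x : H) :
    ∃ G : ℝ → H, G s = x ∧ ∀ r, HasDerivAt G (g r - a • G r) r := by
  have hc : Continuous fun r => exp (a * (r - s)) • g r := by fun_prop
  refine ⟨fun t => exp (-a * (t - s)) • (x + ∫ r in s..t, exp (a * (r - s)) • g r), by simp, ?_⟩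
  intro r
  have he : HasDerivAt (fun r => exp (-a * (r - s))) (exp (-a * (r - s)) * (-a)) r := by
    have := (((hasDerivAt_id r).sub_const s).const_mul (-a)).exp
    simpa using this
  have h1 := (hc.integral_hasStrictDerivAt s r).hasDerivAt.const_add x
  have := he.smul h1
  refine HasDerivAt.congr_deriv this ?_
  have h2 : exp (-a * (r - s)) * exp (a * (r - s)) = 1 := by
    rw [← exp_add]; simp
  rw [smul_smul, h2, one_smul]
  module

/-- strong solutions on the window from `-T` to `0`, at rest at `-T` -/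
structure Cl (R : H →L[ℝ] H) (T c M P : ℝ) (v : H) (g p q : ℝ → H) : Prop where
  cg : Continuous g
  cq : Continuous q
  d1 : ∀ t, HasDerivAt (fun t => R (g t)) (p t) t
  d2 : ∀ t, HasDerivAt p (q t) t
  p0 : p (-T) = 0
  q0 : q (-T) = 0
  hf : ∀ t ∈ Icc (-T) 0, ‖q t + c • p t + g t‖ ≤ M
  hp : ∀ t ∈ Icc (-T) 0, ‖p t‖ ≤ P
  hv : p 0 = v

omit [CompleteSpace H] in
theorem Cl.mono {R : H →L[ℝ] H} {T c M P M' P' : ℝ} {v : H} {g p q : ℝ → H}
    (h : Cl R T c M P v g p q) (hM : M ≤ M') (hP : P ≤ P') : Cl R T c M' P' v g p q :=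
  ⟨h.cg, h.cq, h.d1, h.d2, h.p0, h.q0, fun t ht => (h.hf t ht).trans hM,
    fun t ht => (h.hp t ht).trans hP, h.hv⟩

theorem Cl.step {R : H →L[ℝ] H} {T c δ M P : ℝ} {v : H} {g p q : ℝ → H}
    (h : Cl R T (c + δ) M P v g p q) (hc : 0 < c) (hδ : 0 ≤ δ) (hT : 0 ≤ T) (hδT : δ * T ≤ 2) :
    ∃ g' p' q', Cl R T c (M + δ ^ 2 * (T + 1 / c) * P) ((1 + δ * T) * P) v g' p' q' := by
  obtain ⟨a, hca⟩ : ∃ a, c = 2 * a := ⟨c / 2, by ring⟩
  have ha : 0 < a := by linarith
  obtain ⟨G, hG0, hG⟩ := ode_exists h.cg a (-T) (a⁻¹ • g (-T))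
  have cG : Continuous G := continuous_iff_continuousAt.2 fun t => (hG t).continuousAt
  have cp : Continuous p := continuous_iff_continuousAt.2 fun t => (h.d2 t).continuousAt
  set U1 : ℝ → H := fun t => R (g t) - a • R (G t) with hU1
  set U2 : ℝ → H := fun t => p t - a • U1 t with hU2
  set F : ℝ → H := fun t => U2 t + (c + δ) • U1 t + G t with hF
  set f : ℝ → H := fun t => q t + (c + δ) • p t + g t with hf
  have dU : ∀ t, HasDerivAt (fun t => R (G t)) (U1 t) t := by
    intro t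
    have := R.hasFDerivAt.comp_hasDerivAt t (hG t)
    simpa [hU1, Function.comp_def] using this
  have dU1 : ∀ t, HasDerivAt U1 (p t - a • U1 t) t := fun t =>
    (h.d1 t).sub ((dU t).const_smul a)
  have dU2 : ∀ t, HasDerivAt U2 (q t - a • U2 t) t := fun t =>
    (h.d2 t).sub ((dU1 t).const_smul a)
  have cU2 : Continuous U2 := continuous_iff_continuousAt.2 fun t => (dU2 t).continuousAt
  have dF : ∀ t, HasDerivAt F (f t - a • F t) t := by
    intro t
    have := ((dU2 t).add ((dU1 t).const_smul (c + δ))).add (hG t)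
    refine HasDerivAt.congr_deriv this ?_
    simp only [hf, hF, hU2]
    module
  have U10 : U1 (-T) = 0 := by
    simp only [hU1, hG0, map_smul, smul_smul, mul_inv_cancel₀ ha.ne', one_smul, sub_self]
  have U20 : U2 (-T) = 0 := by simp only [hU2, U10, h.p0, smul_zero, sub_self]
  have hT0 : -T ∈ Icc (-T) 0 := ⟨le_rfl, by linarith⟩
  have hM : 0 ≤ M := (norm_nonneg _).trans (h.hf _ hT0)
  have hP : 0 ≤ P := (norm_nonneg _).trans (h.hp _ hT0)
  have bF : ∀ t ∈ Icc (-T) 0, ‖F t‖ ≤ M / a := by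
    intro t ht
    refine ode_bound2 ha ht.1 dF (fun r hr => h.hf r ⟨hr.1, hr.2.trans ht.2⟩) ?_
    have h1 := h.hf _ hT0
    simp only [h.p0, h.q0, smul_zero, zero_add] at h1
    simp only [hF, U10, U20, hG0, smul_zero, zero_add, norm_smul, norm_inv, Real.norm_eq_abs,
      abs_of_pos ha]
    rw [div_eq_inv_mul]
    exact mul_le_mul_of_nonneg_left h1 (inv_pos.2 ha).le
  have bU1 : ∀ t ∈ Icc (-T) 0, ‖U1 t‖ ≤ P / a := by
    intro t ht
    refine ode_bound2 ha ht.1 dU1 (fun r hr => h.hp r ⟨hr.1, hr.2.trans ht.2⟩) ?_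
    rw [U10, norm_zero]; positivity
  have bU2 : ∀ t ∈ Icc (-T) 0, ‖U2 t‖ ≤ 2 * P := by
    intro t ht
    have h1 := norm_sub_le (p t) (a • U1 t)
    rw [norm_smul, Real.norm_eq_abs, abs_of_pos ha] at h1
    have h2 := mul_le_mul_of_nonneg_left (bU1 t ht) ha.le
    rw [mul_div_cancel₀ _ ha.ne'] at h2
    have := h.hp t ht
    simp only [hU2]; linarith
  refine ⟨fun s => g s + (δ / 2) • (s • (g s - a • G s) - G s + F 0),
    fun s => p s + (δ / 2) • (s • U2 s),
    fun s => q s + (δ / 2) • (U2 s + s • (q s - a • U2 s)), ?_, ?_, ?_, ?_, ?_, ?_, ?_, ?_, ?_⟩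
  · have := h.cg
    fun_prop
  · have := h.cq
    fun_prop
  · intro t
    have := (h.d1 t).add (((((hasDerivAt_id t).smul (dU1 t)).sub (dU t)).add_const
      (R (F 0))).const_smul (δ / 2))
    have e : (fun s => R (g s + (δ / 2) • (s • (g s - a • G s) - G s + F 0))) =
        fun s => R (g s) + (δ / 2) • (s • U1 s - R (G s) + R (F 0)) := by
      funext s
      simp only [hU1, map_add, map_sub, map_smul]
    rw [e]
    refine HasDerivAt.congr_deriv this ?_
    simp only [hU2, id]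
    module
  · intro t
    have := (h.d2 t).add ((((hasDerivAt_id t).smul (dU2 t))).const_smul (δ / 2))
    refine HasDerivAt.congr_deriv this ?_
    simp only [id]
    module
  · simp [h.p0, U20]
  · simp [h.q0, U20]
  · intro s hs
    have hI := ode_bound ha hs.2 dF (fun r hr => h.hf r ⟨hs.1.trans hr.1, hr.2⟩)
    rw [sub_zero] at hI
    set I := F 0 - exp (a * s) • F s with hIdef
    have key : q s + (δ / 2) • (U2 s + s • (q s - a • U2 s)) + c • (p s + (δ / 2) • (s • U2 s)) +
        (g s + (δ / 2) • (s • (g s - a • G s) - G s + F 0)) =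
        (1 + δ * s / 2) • f s + ((δ / 2) * (exp (a * s) - 1 - a * s)) • F s + (δ / 2) • I +
          (δ ^ 2 / 2) • U1 s + (-(δ ^ 2 / 2 * s)) • U2 s := by
      simp only [hIdef, hf, hF, hU2, hca]
      module
    rw [key]
    have hs0 := hs.2
    have hs1 := hs.1
    have e1 : 0 ≤ 1 + δ * s / 2 := by nlinarith
    have e2 : 0 ≤ (δ / 2) * (exp (a * s) - 1 - a * s) := by
      have := add_one_le_exp (a * s)
      apply mul_nonneg <;> linarith
    have e3 : 0 ≤ -(δ ^ 2 / 2 * s) := by nlinarith [sq_nonneg δ]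
    have n1 : ‖(1 + δ * s / 2) • f s‖ ≤ (1 + δ * s / 2) * M := by
      rw [norm_smul, Real.norm_eq_abs, abs_of_nonneg e1]
      exact mul_le_mul_of_nonneg_left (h.hf s hs) e1
    have n2 : ‖((δ / 2) * (exp (a * s) - 1 - a * s)) • F s‖ ≤
        ((δ / 2) * (exp (a * s) - 1 - a * s)) * (M / a) := by
      rw [norm_smul, Real.norm_eq_abs, abs_of_nonneg e2]
      exact mul_le_mul_of_nonneg_left (bF s hs) e2
    have n3 : ‖(δ / 2) • I‖ ≤ (δ / 2) * (M * (1 - exp (a * s)) / a) := by
      rw [norm_smul, Real.norm_eq_abs, abs_of_nonneg (by linarith)]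
      exact mul_le_mul_of_nonneg_left hI (by linarith)
    have n4 : ‖(δ ^ 2 / 2) • U1 s‖ ≤ (δ ^ 2 / 2) * (P / a) := by
      rw [norm_smul, Real.norm_eq_abs, abs_of_nonneg (by positivity)]
      exact mul_le_mul_of_nonneg_left (bU1 s hs) (by positivity)
    have n5 : ‖(-(δ ^ 2 / 2 * s)) • U2 s‖ ≤ δ ^ 2 * T * P := by
      rw [norm_smul, Real.norm_eq_abs, abs_of_nonneg e3]
      have h1 := mul_le_mul_of_nonneg_left (bU2 s hs) e3
      have h2 : 0 ≤ δ ^ 2 * P * (s + T) := by
        apply mul_nonneg (by positivity); linarith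
      nlinarith
    have tot : (1 + δ * s / 2) * M + ((δ / 2) * (exp (a * s) - 1 - a * s)) * (M / a) +
        (δ / 2) * (M * (1 - exp (a * s)) / a) + (δ ^ 2 / 2) * (P / a) + δ ^ 2 * T * P =
        M + δ ^ 2 * (T + 1 / c) * P := by
      rw [hca]; field_simp; ring
    rw [← tot]
    refine (norm_add_le _ _).trans (add_le_add ((norm_add_le _ _).trans (add_le_add
      ((norm_add_le _ _).trans (add_le_add ((norm_add_le _ _).trans (add_le_add n1 n2)) n3)) n4)) n5)
  · intro s hs
    refine (norm_add_le _ _).trans ?_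
    rw [smul_smul, norm_smul, Real.norm_eq_abs, abs_of_nonpos (by nlinarith [hs.2])]
    have e3 : 0 ≤ -(δ / 2 * s) := by nlinarith [hs.2]
    have h1 := mul_le_mul_of_nonneg_left (bU2 s hs) e3
    have h2 : 0 ≤ δ * P * (s + T) := by
      apply mul_nonneg (by positivity); linarith [hs.1]
    have := h.hp s hs
    nlinarith
  · simp [h.hv]

theorem Cl.lower {R : H →L[ℝ] H} {T c₁ c₂ M P ε : ℝ} {v : H} {g p q : ℝ → H}
    (h : Cl R T c₂ M P v g p q) (hc : 0 < c₁) (h12 : c₁ ≤ c₂) (hT : 0 ≤ T) (hε : 0 < ε) :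
    ∃ g' p' q' P', Cl R T c₁ (M + ε) P' v g' p' q' := by
  have hP : 0 ≤ P := (norm_nonneg _).trans (h.hp (-T) ⟨le_rfl, by linarith⟩)
  set D := c₂ - c₁ with hD
  have hD0 : 0 ≤ D := by linarith
  set C := (T + 1 / c₁) * (P * exp (D * T)) with hC
  have hC0 : 0 ≤ C := by positivity
  obtain ⟨N, hN⟩ := exists_nat_gt (D * T + D ^ 2 * C / ε + 1)
  have hx1 : 0 ≤ D * T := by positivity
  have hx2 : 0 ≤ D ^ 2 * C / ε := by positivity
  have hN0 : (0 : ℝ) < N := by linarith
  set δ := D / N with hδ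
  have hδ0 : 0 ≤ δ := by positivity
  have hND : N * δ = D := by rw [hδ]; field_simp
  have hδT : δ * T ≤ 2 := by
    have : δ * T = D * T / N := by rw [hδ]; ring
    rw [this, div_le_iff₀ hN0]; linarith
  have main : ∀ k : ℕ, k ≤ N → ∃ g' p' q',
      Cl R T (c₂ - k * δ) (M + k * (δ ^ 2 * C)) (P * exp (k * δ * T)) v g' p' q' := by
    intro k
    induction k with
    | zero => intro _; exact ⟨g, p, q, by simpa using h⟩
    | succ k ih =>
      intro hk
      obtain ⟨g1, p1, q1, h1⟩ := ih (by omega)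
      have hk' : ((k : ℝ) + 1) ≤ N := by exact_mod_cast hk
      have hkd : ((k : ℝ) + 1) * δ ≤ D := by
        rw [← hND]; exact mul_le_mul_of_nonneg_right hk' hδ0
      have hc1 : c₁ ≤ c₂ - (k + 1) * δ := by linarith
      have e : c₂ - k * δ = (c₂ - (k + 1) * δ) + δ := by ring
      rw [e] at h1
      obtain ⟨g2, p2, q2, h2⟩ := h1.step (by linarith) hδ0 hT hδT
      refine ⟨g2, p2, q2, ?_⟩
      push_cast
      refine h2.mono ?_ ?_
      · have i1 : 1 / (c₂ - (k + 1) * δ) ≤ 1 / c₁ := one_div_le_one_div_of_le hc hc1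
        have i2 : exp (k * δ * T) ≤ exp (D * T) := by
          apply exp_le_exp.2
          apply mul_le_mul_of_nonneg_right _ hT
          nlinarith
        have i3 : (T + 1 / (c₂ - (k + 1) * δ)) * (P * exp (k * δ * T)) ≤ C := by
          rw [hC]
          apply mul_le_mul (by linarith) (mul_le_mul_of_nonneg_left i2 hP) (by positivity)
          positivity
        have := mul_le_mul_of_nonneg_left i3 (sq_nonneg δ)
        nlinarith
      · have i1 := add_one_le_exp (δ * T)
        have i2 : exp ((k + 1) * δ * T) = exp (δ * T) * exp (k * δ * T) := by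
          rw [← exp_add]; ring_nf
        rw [i2]
        have i3 : 0 ≤ P * exp (k * δ * T) := by positivity
        nlinarith
  obtain ⟨g', p', q', h'⟩ := main N le_rfl
  have e : c₂ - N * δ = c₁ := by rw [hND]; ring
  rw [e] at h'
  refine ⟨g', p', q', _, h'.mono ?_ le_rfl⟩
  have e2 : N * (δ ^ 2 * C) = D ^ 2 * C / N := by rw [hδ]; field_simp
  rw [e2]
  have : D ^ 2 * C / N ≤ ε := by
    rw [div_le_iff₀ hN0]
    have h3 : D ^ 2 * C / ε ≤ N := by linarith
    rw [div_le_iff₀ hε] at h3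
    linarith
  linarith

end Pool.Agent.H.MP_8bcfe8_an
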