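import Pool.Agent.H.MP_8bcfe8_an.A

open Set Real Filter Topology MeasureTheory
open scoped RealInnerProductSpace

namespace Pool.Agent.H.MP_8bcfe8_an

variable {H : Type*} [NormedAddCommGroup H] [InnerProductSpace ℝ H] [CompleteSpace H]

/-- symmetric nonnegative operator with dense range -/
structure Pos (R : H →L[ℝ] H) : Prop where
  symm : ∀ x y, ⟪R x, y⟫ = ⟪x, R y⟫
  pos : ∀ x, 0 ≤ ⟪R x, x⟫
  dense : DenseRange R

/-- `Q` is the inverse of `R + ε` -/
structure Res (R Q : H →L[ℝ] H) (ε : ℝ) : Prop where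
  inv : ∀ x, R (Q x) + ε • Q x = x
  comm : ∀ x, Q (R x) = R (Q x)

theorem Pos.res {R : H →L[ℝ] H} (hR : Pos R) {ε : ℝ} (hε : 0 < ε) : ∃ Q, Res R Q ε := by
  have hu : IsUnit (R + ε • (1 : H →L[ℝ] H)) := by
    refine ContinuousLinearMap.isUnit_of_forall_le_norm_inner_map _ (c := ⟨ε, hε.le⟩) hε ?_
    intro x
    refine le_trans ?_ (le_abs_self _)
    have := hR.pos x
    simp only [ContinuousLinearMap.add_apply, ContinuousLinearMap.smul_apply,
      ContinuousLinearMap.one_apply, inner_add_left, real_inner_smul_left,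
      real_inner_self_eq_norm_sq]
    change ‖x‖ ^ 2 * ε ≤ _
    linarith
  obtain ⟨u, hu⟩ := hu
  have h1 : ∀ x, R ((↑u⁻¹ : H →L[ℝ] H) x) + ε • (↑u⁻¹ : H →L[ℝ] H) x = x := by
    intro x
    have := congrArg (fun T : H →L[ℝ] H => T x) u.mul_inv
    simpa [hu] using this
  have h2 : ∀ x, (↑u⁻¹ : H →L[ℝ] H) (R x) + ε • (↑u⁻¹ : H →L[ℝ] H) x = x := by
    intro x
    have := congrArg (fun T : H →L[ℝ] H => T x) u.inv_mul
    simpa [hu] using this
  exact ⟨↑u⁻¹, h1, fun x => add_right_cancel ((h2 x).trans (h1 x).symm)⟩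

omit [CompleteSpace H] in
theorem Res.symm {R Q : H →L[ℝ] H} {ε : ℝ} (hR : Pos R) (h : Res R Q ε) (x y : H) :
    ⟪Q x, y⟫ = ⟪x, Q y⟫ := by
  conv_lhs => rw [← h.inv y]
  conv_rhs => rw [← h.inv x]
  rw [inner_add_left, inner_add_right, hR.symm, real_inner_smul_left, real_inner_smul_right]

omit [CompleteSpace H] in
theorem Res.low {R Q : H →L[ℝ] H} {ε : ℝ} (hR : Pos R) (h : Res R Q ε) (x : H) :
    ε * ‖Q x‖ ^ 2 ≤ ⟪Q x, x⟫ := by
  conv_rhs => rw [← h.inv x]
  rw [h.inv x]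
  have e : ⟪Q x, x⟫ = ⟪Q x, R (Q x) + ε • Q x⟫ := by rw [h.inv x]
  rw [e, inner_add_right, real_inner_smul_right, real_inner_self_eq_norm_sq, ← hR.symm]
  linarith [hR.pos (Q x)]

omit [CompleteSpace H] in
theorem Res.norms {R Q : H →L[ℝ] H} {ε : ℝ} (hR : Pos R) (h : Res R Q ε) (hε : 0 < ε) (x : H) :
    ‖R (Q x)‖ ≤ ‖x‖ ∧ ‖ε • Q x‖ ≤ ‖x‖ := by
  have e := norm_add_sq_real (R (Q x)) (ε • Q x)
  rw [h.inv x, real_inner_smul_right] at e
  have := mul_nonneg hε.le (hR.pos (Q x))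
  constructor
  · exact abs_le_of_sq_le_sq' (by nlinarith [sq_nonneg ‖ε • Q x‖]) (norm_nonneg _) |>.2
  · exact abs_le_of_sq_le_sq' (by nlinarith [sq_nonneg ‖R (Q x)‖]) (norm_nonneg _) |>.2

omit [CompleteSpace H] in
theorem Pos.small {R : H →L[ℝ] H} (hR : Pos R) (x : H) {η : ℝ} (hη : 0 < η) :
    ∃ ε₀ > 0, ∀ ε Q, 0 < ε → ε ≤ ε₀ → Res R Q ε → ‖ε • Q x‖ ≤ η := by
  obtain ⟨y, hy⟩ := hR.dense.exists_dist_lt x (half_pos hη)
  rw [dist_eq_norm] at hy
  refine ⟨η / 2 / (‖y‖ + 1), by positivity, fun ε Q hε hle hQ => ?_⟩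
  have e : ε • Q x = ε • Q (x - R y) + ε • R (Q y) := by
    rw [map_sub, hQ.comm]; module
  rw [e]
  refine (norm_add_le _ _).trans ?_
  have h1 := (hQ.norms hR hε (x - R y)).2
  have h2 := (hQ.norms hR hε y).1
  rw [norm_smul (ε) (R (Q y)), Real.norm_eq_abs, abs_of_pos hε]
  rw [le_div_iff₀ (by positivity)] at hle
  nlinarith [norm_nonneg y]

theorem lin_ex {E : Type*} [NormedAddCommGroup E] [NormedSpace ℝ E] [CompleteSpace E]
    (B : E →L[ℝ] E) (z0 : E) : ∃ z : ℝ → E, z 0 = z0 ∧ ∀ t, HasDerivAt z (B (z t)) t := by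
  refine ⟨fun t => (NormedSpace.exp (t • B)) z0, by simp, fun t => ?_⟩
  have := (hasDerivAt_exp_smul_const' B t).clm_apply (hasDerivAt_const t z0)
  simpa using this

theorem lin_exists (Q : H →L[ℝ] H) (c : ℝ) (n0 m0 : H) :
    ∃ n m : ℝ → H, n 0 = n0 ∧ m 0 = m0 ∧ (∀ t, HasDerivAt n (m t) t) ∧
      ∀ t, HasDerivAt m (-(c • m t) - Q (n t)) t := by
  let B : (H × H) →L[ℝ] (H × H) := (ContinuousLinearMap.snd ℝ H H).prod
    (-(c • ContinuousLinearMap.snd ℝ H H) - Q.comp (ContinuousLinearMap.fst ℝ H H))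
  obtain ⟨z, h0, hz⟩ := lin_ex B (n0, m0)
  refine ⟨fun t => (z t).1, fun t => (z t).2, by simp [h0], by simp [h0], fun t => ?_, fun t => ?_⟩
  · exact (ContinuousLinearMap.fst ℝ H H).hasFDerivAt.comp_hasDerivAt t (hz t)
  · exact (ContinuousLinearMap.snd ℝ H H).hasFDerivAt.comp_hasDerivAt t (hz t)

theorem cont {R : H →L[ℝ] H} (hR : Pos R) {c M η : ℝ} (hc : 0 ≤ c) (hη : 0 < η) (n0 m0 g0 : H)
    (hg0 : ‖g0‖ ≤ M) : ∃ L > 0, ∃ g p q : ℝ → H, Continuous g ∧ Continuous q ∧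
      (∀ t, HasDerivAt (fun t => R (g t)) (p t) t) ∧ (∀ t, HasDerivAt p (q t) t) ∧
      g 0 = n0 ∧ p 0 = R m0 ∧ g L = g0 ∧ p L = 0 ∧
      ∀ t ∈ Icc 0 L, ‖q t + c • p t + g t‖ ≤ M + 2 * η := by
  have hM : 0 ≤ M := (norm_nonneg _).trans hg0
  obtain ⟨ε₀, hε₀, hs⟩ := hR.small n0 (η := η ^ 2 / 2 / (‖n0‖ + 1)) (by positivity)
  set ε := min ε₀ (η ^ 2 / 2 / (‖m0‖ ^ 2 + 1)) with hεd
  have hε : 0 < ε := lt_min hε₀ (by positivity)
  obtain ⟨Q, hQ⟩ := hR.res hε
  have hs1 := hs ε Q hε (min_le_left _ _) hQ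
  have hs2 : ε ≤ η ^ 2 / 2 / (‖m0‖ ^ 2 + 1) := min_le_right _ _
  obtain ⟨n, m, hn0, hm0, dn, dm⟩ := lin_exists Q c n0 m0
  set E : ℝ → ℝ := fun t => ⟪m t, m t⟫ + ⟪Q (n t), n t⟫ with hE
  have dE : ∀ t, HasDerivAt E (-(2 * c * ‖m t‖ ^ 2)) t := by
    intro t
    have h1 := ((dm t).inner ℝ (dm t)).add
      ((Q.hasFDerivAt.comp_hasDerivAt t (dn t)).inner ℝ (dn t))
    refine HasDerivAt.congr_deriv h1 ?_
    simp only [Function.comp_apply, inner_sub_left, inner_sub_right, inner_neg_left,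
      inner_neg_right, real_inner_smul_left, real_inner_smul_right, real_inner_self_eq_norm_sq,
      hQ.symm hR (m t) (n t), real_inner_comm (Q (n t)) (m t)]
    ring
  have anti : Antitone E := antitone_of_deriv_nonpos (fun t => (dE t).differentiableAt)
    (fun t => by rw [(dE t).deriv]; have := sq_nonneg ‖m t‖; nlinarith)
  have hE0 : ε * E 0 ≤ η ^ 2 := by
    simp only [hE, hn0, hm0, real_inner_self_eq_norm_sq]
    have h1 : ε * ⟪Q n0, n0⟫ ≤ ‖ε • Q n0‖ * ‖n0‖ := by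
      rw [← real_inner_smul_left]; exact real_inner_le_norm _ _
    rw [le_div_iff₀ (by positivity)] at hs1 hs2
    nlinarith [norm_nonneg (ε • Q n0)]
  have hx : ∀ t, 0 ≤ t → ‖ε • Q (n t)‖ ≤ η := by
    intro t ht
    have h1 := hQ.low hR (n t)
    have h2 := anti ht
    have h3 : 0 ≤ ⟪m t, m t⟫ := real_inner_self_nonneg
    refine (abs_le_of_sq_le_sq' ?_ hη.le).2
    rw [norm_smul, Real.norm_eq_abs, abs_of_pos hε]
    have h4 : ε * ‖Q (n t)‖ ^ 2 ≤ E 0 := by simp only [hE] at h2 ⊢; linarith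
    nlinarith
  obtain ⟨B, hB0, hB⟩ : ∃ B, 0 ≤ B ∧ ∀ t, 0 ≤ t → ‖R (n t - g0)‖ ≤ B ∧ ‖R (m t)‖ ≤ B := by
    refine ⟨‖R‖ * (‖R‖ * (η / ε) + η + M + (E 0 + 1)), ?_, fun t ht => ?_⟩
    · have h1 := hQ.low hR (n 0)
      have h3 : 0 ≤ ⟪m 0, m 0⟫ := real_inner_self_nonneg
      have : 0 ≤ E 0 := by simp only [hE]; nlinarith [sq_nonneg ‖Q (n 0)‖]
      positivity
    have h1 := hQ.low hR (n t)
    have h2 := anti ht
    have h5 : ‖m t‖ ^ 2 ≤ E 0 := by
      simp only [hE, real_inner_self_eq_norm_sq] at h2 ⊢; nlinarith [sq_nonneg ‖Q (n t)‖]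
    have h6 : ‖m t‖ ≤ E 0 + 1 := by nlinarith [sq_nonneg (‖m t‖ - 1), sq_nonneg ‖m t‖]
    have h7 := hx t ht
    have h8 : ‖Q (n t)‖ ≤ η / ε := by
      rw [norm_smul, Real.norm_eq_abs, abs_of_pos hε] at h7
      rw [le_div_iff₀ hε]; linarith
    have h9 : ‖n t - g0‖ ≤ ‖R‖ * (η / ε) + η + M := by
      refine (norm_sub_le _ _).trans (add_le_add ?_ hg0)
      conv_lhs => rw [← hQ.inv (n t)]
      refine (norm_add_le _ _).trans (add_le_add ?_ h7)
      exact (R.le_opNorm _).trans (mul_le_mul_of_nonneg_left h8 (norm_nonneg _))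
    have h10 : 0 ≤ ‖R‖ * (η / ε) + η + M := by positivity
    constructor
    · refine (R.le_opNorm _).trans (mul_le_mul_of_nonneg_left ?_ (norm_nonneg _))
      linarith [norm_nonneg (m t)]
    · refine (R.le_opNorm _).trans (mul_le_mul_of_nonneg_left ?_ (norm_nonneg _))
      linarith
  set L := (18 + 6 * c) * B / η + 1 with hL
  have hL1 : 1 ≤ L := by
    have : 0 ≤ (18 + 6 * c) * B / η := by positivity
    linarith
  have hL0 : 0 < L := by linarith
  have hLB : (18 + 6 * c) * B ≤ η * L := by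
    rw [hL, mul_add, mul_div_cancel₀ _ hη.ne']; linarith
  set χ : ℝ → ℝ := fun t => 1 - 3 * (t / L) ^ 2 + 2 * (t / L) ^ 3 with hχ
  set χ1 : ℝ → ℝ := fun t => (-6 * (t / L) + 6 * (t / L) ^ 2) / L with hχ1
  set χ2 : ℝ → ℝ := fun t => (-6 + 12 * (t / L)) / L / L with hχ2
  have dx : ∀ t, HasDerivAt (fun t => t / L) (1 / L) t := fun t => (hasDerivAt_id t).div_const L
  have dχ : ∀ t, HasDerivAt χ (χ1 t) t := by
    intro t
    have := (((dx t).pow 2).const_mul 3 |>.const_sub 1).add (((dx t).pow 3).const_mul 2)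
    refine HasDerivAt.congr_deriv this ?_
    simp only [hχ1]; norm_num; ring
  have dχ1 : ∀ t, HasDerivAt χ1 (χ2 t) t := by
    intro t
    have := (((dx t).const_mul (-6)).add (((dx t).pow 2).const_mul 6)).div_const L
    refine HasDerivAt.congr_deriv this ?_
    simp only [hχ2]; norm_num; ring
  have dRn : ∀ t, HasDerivAt (fun t => R (n t - g0)) (R (m t)) t := fun t =>
    R.hasFDerivAt.comp_hasDerivAt t ((dn t).sub_const g0)
  have dRm : ∀ t, HasDerivAt (fun t => R (m t)) (R (-(c • m t) - Q (n t))) t := fun t =>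
    R.hasFDerivAt.comp_hasDerivAt t (dm t)
  have cn : Continuous n := continuous_iff_continuousAt.2 fun t => (dn t).continuousAt
  have cm : Continuous m := continuous_iff_continuousAt.2 fun t => (dm t).continuousAt
  refine ⟨L, hL0, fun t => χ t • (n t - g0) + g0,
    fun t => χ t • R (m t) + χ1 t • R (n t - g0),
    fun t => χ t • R (-(c • m t) - Q (n t)) + (2 * χ1 t) • R (m t) + χ2 t • R (n t - g0),
    by simp only [hχ]; fun_prop, by simp only [hχ, hχ1, hχ2]; fun_prop, fun t => ?_, fun t => ?_,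
    by simp [hχ, hn0], by simp [hχ, hχ1, hm0], ?_, ?_, fun t ht => ?_⟩
  · have := ((dχ t).smul (dRn t)).add_const (R g0)
    simp only [map_add, map_smul]
    exact this
  · have := ((dχ t).smul (dRm t)).add ((dχ1 t).smul (dRn t))
    refine HasDerivAt.congr_deriv this ?_
    module
  · simp only [hχ, div_self hL0.ne']; norm_num
  · simp only [hχ, hχ1, div_self hL0.ne']; norm_num
  · have hx0 : 0 ≤ t / L := div_nonneg ht.1 hL0.le
    have hx1 : t / L ≤ 1 := (div_le_one hL0).2 ht.2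
    have key : χ t • R (-(c • m t) - Q (n t)) + (2 * χ1 t) • R (m t) + χ2 t • R (n t - g0) +
        c • (χ t • R (m t) + χ1 t • R (n t - g0)) + (χ t • (n t - g0) + g0) =
        χ t • (ε • Q (n t)) + (1 - χ t) • g0 + (2 * χ1 t) • R (m t) +
          (χ2 t + c * χ1 t) • R (n t - g0) := by
      have e : ε • Q (n t) = n t - R (Q (n t)) := by
        rw [eq_sub_iff_add_eq, add_comm]; exact hQ.inv _
      rw [e, map_sub R (-(c • m t)), map_neg, map_smul]
      module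
    rw [key]
    have c0 : 0 ≤ χ t := by
      have : χ t = (1 - t / L) ^ 2 * (1 + 2 * (t / L)) := by simp only [hχ]; ring
      rw [this]; positivity
    have c1 : 0 ≤ 1 - χ t := by
      have : 1 - χ t = (t / L) ^ 2 * (3 - 2 * (t / L)) := by simp only [hχ]; ring
      rw [this]; apply mul_nonneg (sq_nonneg _); linarith
    have c2 : |χ1 t| ≤ 6 / L := by
      simp only [hχ1]
      rw [abs_div, abs_of_pos hL0]
      apply div_le_div_of_nonneg_right _ hL0.le
      rw [abs_le]; constructor <;> nlinarith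
    have c3 : |χ2 t| ≤ 6 / L := by
      simp only [hχ2]
      rw [abs_div, abs_of_pos hL0]
      apply div_le_div_of_nonneg_right _ hL0.le
      rw [abs_div, abs_of_pos hL0, div_le_iff₀ hL0, abs_le]; constructor <;> nlinarith
    obtain ⟨b1, b2⟩ := hB t ht.1
    have n1 : ‖χ t • (ε • Q (n t))‖ ≤ χ t * η := by
      rw [norm_smul, Real.norm_eq_abs, abs_of_nonneg c0]
      exact mul_le_mul_of_nonneg_left (hx t ht.1) c0
    have n2 : ‖(1 - χ t) • g0‖ ≤ (1 - χ t) * M := by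
      rw [norm_smul, Real.norm_eq_abs, abs_of_nonneg c1]
      exact mul_le_mul_of_nonneg_left hg0 c1
    have n3 : ‖(2 * χ1 t) • R (m t)‖ ≤ 2 * (6 / L) * B := by
      rw [norm_smul, Real.norm_eq_abs, abs_mul, abs_two]
      exact mul_le_mul (by linarith) b2 (norm_nonneg _) (by positivity)
    have n4 : ‖(χ2 t + c * χ1 t) • R (n t - g0)‖ ≤ (6 / L + c * (6 / L)) * B := by
      rw [norm_smul, Real.norm_eq_abs]
      refine mul_le_mul ((abs_add_le _ _).trans (add_le_add c3 ?_)) b1 (norm_nonneg _)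
        (by positivity)
      rw [abs_mul, abs_of_nonneg hc]
      exact mul_le_mul_of_nonneg_left c2 hc
    have n5 : 2 * (6 / L) * B + (6 / L + c * (6 / L)) * B ≤ η := by
      have : 2 * (6 / L) * B + (6 / L + c * (6 / L)) * B = (18 + 6 * c) * B / L := by ring
      rw [this, div_le_iff₀ hL0]; exact hLB
    have n6 : χ t * η + (1 - χ t) * M ≤ M + η := by nlinarith
    refine (norm_add_le _ _).trans ?_
    have := norm_add_le (χ t • (ε • Q (n t)) + (1 - χ t) • g0) ((2 * χ1 t) • R (m t))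
    have := norm_add_le (χ t • (ε • Q (n t))) ((1 - χ t) • g0)
    linarith

end Pool.Agent.H.MP_8bcfe8_an
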