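import Pool.Agent.H.MP_38ba9c_an.Up

open Filter Topology Real MeasureTheory Set RealInnerProductSpace Pool.Agent.H.MP_38ba9c_an

namespace Pool.Agent.H.MP_8bcfe8_an

variable {H : Type*} [NormedAddCommGroup H] [InnerProductSpace ℝ H]

/-- A classical solution of w'' + c w' + L w = G with velocity p. -/
structure Cl (L : H →L[ℝ] H) (c : ℝ) (G w p : ℝ → H) : Prop where
  cG : Continuous G
  dw : ∀ t, HasDerivAt w (p t) t
  dp : ∀ t, HasDerivAt p (G t - c • p t - L (w t)) t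

variable {L : H →L[ℝ] H} {c : ℝ} {G w p : ℝ → H}

lemma Cl.cw (S : Cl L c G w p) : Continuous w :=
  continuous_iff_continuousAt.2 fun t => (S.dw t).continuousAt

lemma Cl.cp (S : Cl L c G w p) : Continuous p :=
  continuous_iff_continuousAt.2 fun t => (S.dp t).continuousAt

lemma expo {R : Type*} [NormedRing R] [NormedAlgebra ℝ R] [CompleteSpace R] (M : R) :
    ∃ E : ℝ → R, E 0 = 1 ∧ (∀ t, HasDerivAt E (M * E t) t) ∧ ∀ t, E t * E (-t) = 1 := by
  let : NormedAlgebra ℚ R := .restrictScalars ℚ ℝ _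
  refine ⟨fun t => NormedSpace.exp (t • M), by simp, hasDerivAt_exp_smul_const' (𝕂 := ℝ) M,
    fun t => ?_⟩
  rw [← NormedSpace.exp_add_of_commute (((Commute.refl M).smul_left _).smul_right _),
    ← add_smul, add_neg_cancel, zero_smul, NormedSpace.exp_zero]

lemma ode {E : Type*} [NormedAddCommGroup E] [NormedSpace ℝ E] [CompleteSpace E] (M : E →L[ℝ] E)
    {g : ℝ → E} (hg : Continuous g) (x : E) :
    ∃ W : ℝ → E, W 0 = x ∧ ∀ t, HasDerivAt W (M (W t) + g t) t := by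
  obtain ⟨U, U0, dU, inv⟩ := expo M
  have cU : Continuous U := continuous_iff_continuousAt.2 fun t => (dU t).continuousAt
  have cI : Continuous fun s : ℝ => U (-s) (g s) := (cU.comp continuous_neg).clm_apply hg
  refine ⟨fun t => U t (x + ∫ s in (0 : ℝ)..t, U (-s) (g s)), by simp [U0], fun t => ?_⟩
  refine HasDerivAt.congr_deriv ((dU t).clm_apply
    ((cI.integral_hasStrictDerivAt 0 t).hasDerivAt.const_add x)) ?_
  rw [← mul_apply_eq_comp (U t), inv]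
  rfl

lemma exist [CompleteSpace H] (L : H →L[ℝ] H) (c : ℝ) (hG : Continuous G) (y : H) :
    ∃ w p, Cl L c G w p ∧ w 0 = 0 ∧ p 0 = y := by
  set M : (H × H) →L[ℝ] (H × H) := (ContinuousLinearMap.snd ℝ H H).prod
    (-(c • ContinuousLinearMap.snd ℝ H H) - L ∘L ContinuousLinearMap.fst ℝ H H) with hM
  obtain ⟨W, W0, dW⟩ := ode M (g := fun s => (0, G s)) (by fun_prop) (0, y)
  refine ⟨fun t => (W t).1, fun t => (W t).2, ⟨hG, fun t => ?_, fun t => ?_⟩, by simp [W0],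
    by simp [W0]⟩
  · exact HasDerivAt.congr_deriv
      ((ContinuousLinearMap.fst ℝ H H).hasFDerivAt.comp_hasDerivAt t (dW t)) (by simp [hM])
  · refine HasDerivAt.congr_deriv
      ((ContinuousLinearMap.snd ℝ H H).hasFDerivAt.comp_hasDerivAt t (dW t)) ?_
    simp [hM]
    abel

/-- L is symmetric and coercive, and δ is an admissible decay rate. -/
structure Ok (L : H →L[ℝ] H) (β c δ : ℝ) : Prop where
  sym : ∀ x y, ⟪L x, y⟫ = ⟪x, L y⟫
  co : ∀ x, β * ‖x‖ ^ 2 ≤ ⟪L x, x⟫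
  β0 : 0 < β
  δ0 : 0 < δ
  d1 : 3 * δ ≤ 2 * c
  d2 : δ * (β + c ^ 2) ≤ c * β

variable {β δ : ℝ}

lemma energy (O : Ok L β c δ) (S : Cl L c G w p) (w0 : w 0 = 0) {C ρ : ℝ} (ρ1 : 4 * ρ ≤ δ)
    (hG : ∀ s, 0 ≤ s → ‖G s‖ ^ 2 ≤ C * exp (-ρ * s)) {t : ℝ} (ht : 0 ≤ t) :
    ‖p t‖ ^ 2 / 2 + ⟪L (w t), w t⟫ ≤ (‖p 0‖ ^ 2 + 8 * C / δ ^ 2) * exp (-ρ * t) := by
  have cw := S.cw
  have cp := S.cp
  have cG := S.cG
  have δ0 := O.δ0
  have β0 := O.β0
  have C0 : 0 ≤ C := by simpa using (sq_nonneg _).trans (hG 0 le_rfl)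
  set Q : ℝ → ℝ := fun t => ⟪p t, p t⟫ + c * ⟪w t, p t⟫ + ⟪L (w t), w t⟫ + c ^ 2 / 2 * ⟪w t, w t⟫
    with hQ
  have q1 : ∀ t, ‖p t‖ ^ 2 / 2 + ⟪L (w t), w t⟫ ≤ Q t := fun t => by
    have := real_inner_self_nonneg (x := p t + c • w t)
    simp only [inner_add_left, inner_add_right, inner_smul_left, inner_smul_right,
      real_inner_comm (w t) (p t), conj_trivial] at this
    simp only [hQ, ← real_inner_self_eq_norm_sq]
    nlinarith
  have dQ : ∀ t, HasDerivAt Q (-c * ⟪p t, p t⟫ - c * ⟪L (w t), w t⟫ + 2 * ⟪G t, p t⟫ +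
      c * ⟪G t, w t⟫) t := fun t => by
    refine HasDerivAt.congr_deriv (((((S.dp t).inner ℝ (S.dp t)).fun_add
      (((S.dw t).inner ℝ (S.dp t)).const_mul c)).fun_add
      ((L.hasFDerivAt.comp_hasDerivAt t (S.dw t)).inner ℝ (S.dw t))).fun_add
      (((S.dw t).inner ℝ (S.dw t)).const_mul (c ^ 2 / 2))) ?_
    simp only [inner_sub_left, inner_sub_right, inner_smul_left, inner_smul_right, conj_trivial,
      Function.comp, O.sym (p t), real_inner_comm (G t), real_inner_comm (L (w t)),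
      real_inner_comm (w t) (p t)]
    ring
  have := incr (Γ := fun t => 8 * C / δ ^ 2 * exp ((δ / 2 - ρ) * t) - exp (δ / 2 * t) * Q t)
    (g := fun t => 8 * C / δ ^ 2 * ((δ / 2 - ρ) * exp ((δ / 2 - ρ) * t)) - (δ / 2 * exp (δ / 2 * t) *
      Q t + exp (δ / 2 * t) * (-c * ⟪p t, p t⟫ - c * ⟪L (w t), w t⟫ + 2 * ⟪G t, p t⟫ +
      c * ⟪G t, w t⟫))) ht (by simp only [hQ]; fun_prop)
    (fun t => ((dexp _ t).const_mul _).fun_sub ((dexp _ t).fun_mul (dQ t))) fun s hs => by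
      have e1 : exp ((δ / 2 - ρ) * s) = exp (δ / 2 * s) * exp (-ρ * s) := by
        rw [← exp_add]; congr 1; ring
      have a0 := real_inner_self_nonneg (x := (2 : ℝ) • G s - δ • p s - (δ * c / 2) • w s)
      have a1 := real_inner_self_nonneg (x := p s - c • w s)
      simp only [inner_sub_left, inner_sub_right, inner_smul_left, inner_smul_right,
        real_inner_comm (w s) (p s), real_inner_comm (G s), conj_trivial] at a0 a1
      have a2 := O.co (w s)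
      have a3 := hG s hs.1
      rw [← real_inner_self_eq_norm_sq] at a2 a3
      have a4 := real_inner_self_nonneg (x := p s)
      have a5 := real_inner_self_nonneg (x := w s)
      have a6 : δ * Q s ≤ c * ⟪p s, p s⟫ + c * ⟪L (w s), w s⟫ := by
        have b1 : δ * c ^ 2 * ⟪w s, w s⟫ ≤ (c - δ) * ⟪L (w s), w s⟫ := by
          have : δ * c ^ 2 ≤ (c - δ) * β := by linarith [O.d2]
          have b2 : 0 ≤ c - δ := by linarith [O.d1]
          nlinarith [mul_le_mul_of_nonneg_left a2 b2, mul_le_mul_of_nonneg_right this a5]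
        simp only [hQ]
        nlinarith [mul_nonneg δ0.le a1, mul_le_mul_of_nonneg_right O.d1 a4]
      have a7 : δ * (2 * ⟪G s, p s⟫ + c * ⟪G s, w s⟫) ≤ 2 * ⟪G s, G s⟫ + δ ^ 2 / 2 * Q s := by
        simp only [hQ]
        nlinarith [mul_nonneg (sq_nonneg δ) ((mul_nonneg β0.le a5).trans a2),
          mul_nonneg (sq_nonneg (δ * c)) a5]
      have a8 : 2 / δ * (C * exp (-ρ * s)) ≤ 8 * C / δ ^ 2 * ((δ / 2 - ρ) * exp (-ρ * s)) := by
        have : 8 * C / δ ^ 2 * ((δ / 2 - ρ) * exp (-ρ * s)) - 2 / δ * (C * exp (-ρ * s)) =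
            2 * (δ - 4 * ρ) / δ ^ 2 * (C * exp (-ρ * s)) := by field_simp; ring
        have h2 : 0 ≤ δ - 4 * ρ := by linarith
        rw [← sub_nonneg, this]
        positivity
      have a9 : 2 * ⟪G s, p s⟫ + c * ⟪G s, w s⟫ ≤ 2 / δ * (C * exp (-ρ * s)) + δ / 2 * Q s := by
        refine le_of_mul_le_mul_left (a7.trans ?_) δ0
        have : δ * (2 / δ * (C * exp (-ρ * s)) + δ / 2 * Q s) =
          2 * (C * exp (-ρ * s)) + δ ^ 2 / 2 * Q s := by field_simp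
        linarith
      rw [e1]
      nlinarith [mul_le_mul_of_nonneg_left ((add_le_add a6 (a9.trans (add_le_add a8 le_rfl))))
        (exp_pos (δ / 2 * s)).le]
  have q0 : Q 0 = ‖p 0‖ ^ 2 := by simp [hQ, w0]
  simp only [mul_zero, exp_zero, q0] at this
  have e1 : exp ((δ / 2 - ρ) * t) = exp (δ / 2 * t) * exp (-ρ * t) := by
    rw [← exp_add]; congr 1; ring
  have e2 : 1 ≤ exp ((δ / 2 - ρ) * t) := one_le_exp (mul_nonneg (by linarith) ht)
  refine (q1 t).trans (le_of_mul_le_mul_left ?_ (exp_pos (δ / 2 * t)))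
  have : 0 ≤ 8 * C / δ ^ 2 := by positivity
  rw [mul_left_comm, ← e1]
  nlinarith [mul_le_mul_of_nonneg_left e2 (sq_nonneg ‖p 0‖)]

lemma vel (O : Ok L β c δ) (S : Cl L c G w p) (w0 : w 0 = 0) {C ρ : ℝ} (ρ1 : 8 * ρ ≤ δ)
    (hG : ∀ s, 0 ≤ s → ‖G s‖ ≤ C * exp (-ρ * s)) {t : ℝ} (ht : 0 ≤ t) :
    ‖p t‖ ≤ (2 * ‖p 0‖ + 4 * C / δ) * exp (-ρ * t) ∧
      β * ‖w t‖ ^ 2 ≤ ((‖p 0‖ + 4 * C / δ) * exp (-ρ * t)) ^ 2 ∧
      ⟪L (w t), w t⟫ ≤ ((‖p 0‖ + 4 * C / δ) * exp (-ρ * t)) ^ 2 := by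
  have C0 : 0 ≤ C := by simpa using (norm_nonneg _).trans (hG 0 le_rfl)
  have δ0 := O.δ0
  have e : ∀ s, exp (-(2 * ρ) * s) = exp (-ρ * s) ^ 2 := fun s => by
    rw [← exp_nat_mul]; congr 1; push_cast; ring
  have h := energy O S w0 (C := C ^ 2) (ρ := 2 * ρ) (by linarith) (fun s hs => by
    rw [e, ← mul_pow]; exact pow_le_pow_left₀ (norm_nonneg _) (hG s hs) 2) ht
  have h1 := O.co (w t)
  have h2 : 0 ≤ β * ‖w t‖ ^ 2 := mul_nonneg O.β0.le (sq_nonneg _)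
  have h3 : 8 * C ^ 2 / δ ^ 2 = (4 * C / δ) ^ 2 / 2 := by field_simp; ring
  rw [e, h3] at h
  have h4 : 0 ≤ 4 * C / δ := by positivity
  have h5 := mul_nonneg (mul_nonneg h4 (norm_nonneg (p 0))) (sq_nonneg (exp (-ρ * t)))
  have h6 := mul_nonneg (sq_nonneg (4 * C / δ)) (sq_nonneg (exp (-ρ * t)))
  have h7 := mul_nonneg (sq_nonneg ‖p 0‖) (sq_nonneg (exp (-ρ * t)))
  have h8 : ⟪L (w t), w t⟫ ≤ ((‖p 0‖ + 4 * C / δ) * exp (-ρ * t)) ^ 2 := by
    nlinarith [sq_nonneg ‖p t‖]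
  exact ⟨(abs_le_of_sq_le_sq' (by nlinarith) (by positivity)).2, h1.trans h8, h8⟩

end Pool.Agent.H.MP_8bcfe8_an
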