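import Pool.Agent.H.MP_8bcfe8_an.B

open Set Real Filter Topology MeasureTheory
open scoped RealInnerProductSpace

namespace Pool.Agent.H.MP_8bcfe8_an

variable {H : Type*} [NormedAddCommGroup H] [InnerProductSpace ℝ H] [CompleteSpace H]

/-- solutions with right derivatives -/
structure RS (R : H →L[ℝ] H) (c : ℝ) (g p f : ℝ → H) : Prop where
  cg : Continuous g
  cp : Continuous p
  d1 : ∀ t, HasDerivWithinAt (fun t => R (g t)) (p t) (Ici t) t
  d2 : ∀ t, HasDerivWithinAt p (f t - c • p t - g t) (Ici t) t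
  mf : StronglyMeasurable f

omit [CompleteSpace H] in
theorem RS.of {R : H →L[ℝ] H} {c : ℝ} {g p q : ℝ → H} (cg : Continuous g) (cq : Continuous q)
    (d1 : ∀ t, HasDerivAt (fun t => R (g t)) (p t) t) (d2 : ∀ t, HasDerivAt p (q t) t) :
    RS R c g p (fun t => q t + c • p t + g t) := by
  have cp : Continuous p := continuous_iff_continuousAt.2 fun t => (d2 t).continuousAt
  refine ⟨cg, cp, fun t => (d1 t).hasDerivWithinAt, fun t => ?_,
    Continuous.stronglyMeasurable (by fun_prop)⟩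
  refine ((d2 t).congr_deriv ?_).hasDerivWithinAt
  module

omit [CompleteSpace H] in
theorem RS.glue {R : H →L[ℝ] H} {c a : ℝ} {g p f g' p' f' : ℝ → H} (h : RS R c g p f)
    (h' : RS R c g' p' f') (eg : g' a = g a) (ep : p' a = p a) :
    RS R c (fun t => if a ≤ t then g' t else g t) (fun t => if a ≤ t then p' t else p t)
      (fun t => if a ≤ t then f' t else f t) := by
  have ev : ∀ t, ¬ a ≤ t → ∀ᶠ y in 𝓝[Ici t] t, ¬ a ≤ y := fun t ht =>
    mem_nhdsWithin_of_mem_nhds ((gt_mem_nhds (not_le.1 ht)).mono fun y hy => not_le.2 hy)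
  refine ⟨h'.cg.if_le h.cg continuous_const continuous_id fun x hx => by rw [← hx, eg],
    h'.cp.if_le h.cp continuous_const continuous_id fun x hx => by rw [← hx, ep],
    fun t => ?_, fun t => ?_, h'.mf.ite measurableSet_Ici h.mf⟩
  · by_cases ht : a ≤ t
    · simp only [if_pos ht]
      exact (h'.d1 t).congr (fun y hy => by simp only [if_pos (ht.trans hy)])
        (by simp only [if_pos ht])
    · simp only [if_neg ht]
      exact (h.d1 t).congr_of_eventuallyEq ((ev t ht).mono fun y hy => by simp only [if_neg hy])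
        (by simp only [if_neg ht])
  · by_cases ht : a ≤ t
    · simp only [if_pos ht]
      exact (h'.d2 t).congr (fun y hy => by simp only [if_pos (ht.trans hy)])
        (by simp only [if_pos ht])
    · simp only [if_neg ht]
      exact (h.d2 t).congr_of_eventuallyEq ((ev t ht).mono fun y hy => by simp only [if_neg hy])
        (by simp only [if_neg ht])

omit [CompleteSpace H] in
theorem RS.periodize {R : H →L[ℝ] H} {c a b : ℝ} {g p f : ℝ → H} (h : RS R c g p f)
    (hab : a < b) (eg : g a = g b) (ep : p a = p b) :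
    ∃ φ : ℝ → ℝ, (∀ t, φ t ∈ Ico a b) ∧ RS R c (g ∘ φ) (p ∘ φ) (f ∘ φ) ∧
      ∀ s ∈ Ico a b, ∃ᶠ t in atTop, φ t = s := by
  set τ := b - a with hτ
  have hτ0 : 0 < τ := by linarith
  set φ : ℝ → ℝ := fun t => a + τ * Int.fract (t / τ) with hφ
  have cont : ∀ u : ℝ → H, Continuous u → u a = u b → Continuous (u ∘ φ) := by
    intro u hu e
    have h1 : Continuous ((fun x => u (a + τ * x)) ∘ Int.fract) :=
      ContinuousOn.comp_fract'' (by fun_prop) (by simp [hτ, e])
    exact h1.comp (continuous_id.div_const τ)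
  have dφ : ∀ t, HasDerivWithinAt φ 1 (Ici t) t ∧ ∀ᶠ y in 𝓝[Ici t] t, φ y ∈ Ici (φ t) := by
    intro t
    have h1 : Tendsto (fun y => y / τ) (𝓝[Ici t] t) (𝓝[Ici (t / τ)] (t / τ)) :=
      ((continuous_id.div_const τ).continuousWithinAt).tendsto_nhdsWithin
        fun y hy => div_le_div_of_nonneg_right hy hτ0.le
    have h2 := tendsto_pure.1 ((tendsto_floor_right_pure_floor (t / τ)).comp h1)
    have h3 : ∀ y, φ y = y + (a - τ * ⌊y / τ⌋) := by
      intro y
      simp only [hφ, Int.fract]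
      field_simp
      ring
    have h4 : φ =ᶠ[𝓝[Ici t] t] fun y => y + (a - τ * ⌊t / τ⌋) :=
      h2.mono fun y hy => by
        simp only [Function.comp_apply] at hy
        rw [h3, hy]
    refine ⟨((hasDerivAt_id t).add_const _).hasDerivWithinAt.congr_of_eventuallyEq h4 (h3 t), ?_⟩
    filter_upwards [h4, self_mem_nhdsWithin] with y hy hy2
    rw [hy, h3 t]
    simp only [mem_Ici] at hy2 ⊢
    linarith
  have chain : ∀ (u : ℝ → H) (w : H) (t : ℝ), HasDerivWithinAt u w (Ici (φ t)) (φ t) →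
      HasDerivWithinAt (u ∘ φ) w (Ici t) t := by
    intro u w t hu
    have h1 := (dφ t).1.mono (inter_subset_left (t := φ ⁻¹' Ici (φ t)))
    have h2 := hu.scomp t h1 (fun y hy => hy.2)
    rw [one_smul] at h2
    exact (hasDerivWithinAt_inter' (dφ t).2).1 h2
  refine ⟨φ, fun t => ⟨?_, ?_⟩, ⟨cont g h.cg eg, cont p h.cp ep,
    fun t => chain _ _ t (h.d1 (φ t)), fun t => chain _ _ t (h.d2 (φ t)),
    h.mf.comp_measurable (by simp only [hφ]; fun_prop)⟩, fun s hs => ?_⟩
  · have := mul_nonneg hτ0.le (Int.fract_nonneg (t / τ))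
    simp only [hφ]; linarith
  · have := mul_lt_mul_of_pos_left (Int.fract_lt_one (t / τ)) hτ0
    simp only [hφ]; linarith
  · rw [frequently_atTop]
    intro x
    obtain ⟨n, hn⟩ := exists_nat_ge (x / τ)
    rw [div_le_iff₀ hτ0] at hn
    refine ⟨s - a + n * τ, by linarith [hs.1], ?_⟩
    have e : (s - a + n * τ) / τ = (s - a) / τ + n := by field_simp
    simp only [hφ, e, Int.fract_add_natCast]
    rw [Int.fract_eq_self.2 ⟨div_nonneg (by linarith [hs.1]) hτ0.le,
      (div_lt_one hτ0).2 (by linarith [hs.2])⟩]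
    field_simp
    ring

/-- the asymptotic velocity estimate with constant `K`, for bounded regular solutions -/
def HL (R : H →L[ℝ] H) (c K : ℝ) : Prop :=
  ∀ g p f M, RS R c g p f → (∃ B, ∀ t, ‖g t‖ ≤ B ∧ ‖p t‖ ≤ B) → (∀ t, ‖f t‖ ≤ M) →
    ∀ ε > 0, ∀ᶠ t in atTop, ‖p t‖ ≤ K * M + ε

theorem window {R : H →L[ℝ] H} (hR : Pos R) {T c M P K : ℝ} {v : H} {g p q : ℝ → H}
    (hK : HL R c K) (hK0 : 0 ≤ K) (hc : 0 ≤ c) (hT : 0 ≤ T) (h : Cl R T c M P v g p q) :
    ‖v‖ ≤ K * M := by
  have main : ∀ η > 0, ‖v‖ ≤ K * (M + 2 * η) + η + η := by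
    intro η hη
    obtain ⟨ε, hε, hs⟩ := hR.small v hη
    obtain ⟨Q, hQ⟩ := hR.res hε
    have hs1 := hs ε Q hε le_rfl hQ
    let J : H →L[ℝ] H := R.comp Q
    have hJ : ∀ x, ‖J x‖ ≤ ‖x‖ := fun x => (hQ.norms hR hε x).1
    have hT0 : -T ∈ Icc (-T) 0 := ⟨le_rfl, by linarith⟩
    have hg0 : ‖g (-T)‖ ≤ M := by simpa [h.p0, h.q0] using h.hf _ hT0
    obtain ⟨L, hL, g2, p2, q2, cg2, cq2, d1, d2, e1, e2, e3, e4, hf2⟩ :=
      cont hR hc hη (J (g 0)) (Q v) (J (g (-T))) ((hJ _).trans hg0)
    have r2 := RS.of (c := c) cg2 cq2 d1 d2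
    have r1 := RS.of (R := R) (c := c) (g := fun t => J (g t)) (p := fun t => J (p t))
      (q := fun t => J (q t)) (J.continuous.comp h.cg) (J.continuous.comp h.cq)
      (fun t => by
        have := J.hasFDerivAt.comp_hasDerivAt t (h.d1 t)
        convert this using 1
        funext s
        simp [J, hQ.comm])
      (fun t => J.hasFDerivAt.comp_hasDerivAt t (h.d2 t))
    have r3 := r1.glue (a := 0) r2 e1 (by rw [e2, h.hv]; rfl)
    have hTL : -T < L := by linarith
    obtain ⟨φ, hφ, r4, hfr⟩ := r3.periodize hTL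
      (by
        by_cases h0 : 0 ≤ -T
        · have : T = 0 := by linarith
          subst this
          simp only [neg_zero, le_refl, if_true, if_pos hL.le] at *
          rw [e1, e3]
        · simp only [if_neg h0, if_pos hL.le, e3])
      (by
        by_cases h0 : 0 ≤ -T
        · have : T = 0 := by linarith
          subst this
          have h5 := h.p0
          have h6 := h.hv
          simp only [neg_zero, le_refl, if_true, if_pos hL.le] at *
          rw [e2, e4, ← h6, h5]; simp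
        · simp only [if_neg h0, if_pos hL.le, e4, h.p0, map_zero])
    obtain ⟨B1, hB1⟩ := (isCompact_Icc (a := -T) (b := L)).exists_bound_of_continuousOn
      r3.cg.continuousOn
    obtain ⟨B2, hB2⟩ := (isCompact_Icc (a := -T) (b := L)).exists_bound_of_continuousOn
      r3.cp.continuousOn
    have := hK _ _ _ (M + 2 * η) r4 ⟨max B1 B2, fun t =>
      ⟨(hB1 _ (Ico_subset_Icc_self (hφ t))).trans (le_max_left _ _),
        (hB2 _ (Ico_subset_Icc_self (hφ t))).trans (le_max_right _ _)⟩⟩ (fun t => by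
      simp only [Function.comp_apply]
      split_ifs with h0
      · exact hf2 _ ⟨h0, (hφ t).2.le⟩
      · rw [← map_smul, ← map_add, ← map_add]
        refine (hJ _).trans ((h.hf _ ⟨(hφ t).1, (not_le.1 h0).le⟩).trans (by linarith))) η hη
    obtain ⟨t, ht1, ht2⟩ := ((hfr 0 ⟨by linarith, hL⟩).and_eventually this).exists
    simp only [Function.comp_apply, ht1, le_refl, if_true, e2] at ht2
    calc ‖v‖ = ‖R (Q v) + ε • Q v‖ := by rw [hQ.inv]
      _ ≤ _ := (norm_add_le _ _).trans (add_le_add ht2 hs1)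
  refine le_of_forall_pos_le_add fun ε hε => ?_
  have := main (ε / (2 * K + 2)) (by positivity)
  have e : K * (M + 2 * (ε / (2 * K + 2))) + ε / (2 * K + 2) + ε / (2 * K + 2) = K * M + ε := by
    field_simp; ring
  linarith

theorem window' {R : H →L[ℝ] H} (hR : Pos R) {T c₁ c₂ M P K : ℝ} {v : H} {g p q : ℝ → H}
    (hK : HL R c₁ K) (hK0 : 0 ≤ K) (hc : 0 < c₁) (h12 : c₁ ≤ c₂) (hT : 0 ≤ T)
    (h : Cl R T c₂ M P v g p q) : ‖v‖ ≤ K * M := by
  refine le_of_forall_pos_le_add fun ε hε => ?_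
  obtain ⟨g', p', q', P', h'⟩ := h.lower hc h12 hT (ε := ε / (K + 1)) (by positivity)
  have := window hR hK hK0 hc.le hT h'
  have e : K * (ε / (K + 1)) ≤ ε := by
    rw [← mul_div_assoc, div_le_iff₀ (by positivity)]; nlinarith
  linarith

end Pool.Agent.H.MP_8bcfe8_an
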