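import Pool.Agent.H.MP_8bcfe8_an.C

open Set Real Filter Topology MeasureTheory
open scoped RealInnerProductSpace

namespace Pool.Agent.H.MP_8bcfe8_an

variable {H : Type*} [NormedAddCommGroup H] [InnerProductSpace ℝ H] [CompleteSpace H]

omit [InnerProductSpace ℝ H] [CompleteSpace H] in
theorem zc {φ : ℝ → H} {a : ℝ} (h : ∀ s, a ≤ s → ContinuousAt φ s) (h0 : φ a = 0) :
    Continuous fun s => if s ≤ a then 0 else φ s := by
  have : (fun s => if s ≤ a then 0 else φ s) = fun s => φ (max s a) := by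
    funext s
    split_ifs with hs
    · rw [max_eq_right hs, h0]
    · rw [max_eq_left (not_le.1 hs).le]
  rw [this]
  exact continuous_iff_continuousAt.2 fun s =>
    ContinuousAt.comp (f := fun s => max s a) (h _ (le_max_right _ _)) (by fun_prop)

omit [CompleteSpace H] in
theorem zd {φ φ' : ℝ → H} {a : ℝ} (h : ∀ s, a ≤ s → HasDerivAt φ (φ' s) s) (h0 : φ a = 0)
    (h1 : φ' a = 0) (s : ℝ) :
    HasDerivAt (fun s => if s ≤ a then 0 else φ s) (if s ≤ a then 0 else φ' s) s := by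
  rcases lt_trichotomy s a with hs | rfl | hs
  · rw [if_pos hs.le]
    exact (hasDerivAt_const s (0 : H)).congr_of_eventuallyEq
      ((gt_mem_nhds hs).mono fun y hy => if_pos (le_of_lt hy))
  · rw [if_pos le_rfl, ← hasDerivWithinAt_univ, ← Iic_union_Ici (a := s)]
    refine HasDerivWithinAt.union ?_ ?_
    · exact (hasDerivAt_const s (0 : H)).hasDerivWithinAt.congr (fun y hy => if_pos hy)
        (if_pos le_rfl)
    · rw [← h1]
      refine (h s le_rfl).hasDerivWithinAt.congr (fun y hy => ?_) (by rw [if_pos le_rfl, h0, h1])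
      split_ifs with h2
      · rw [le_antisymm h2 hy, h0, h1]
      · rfl
  · rw [if_neg (not_le.2 hs)]
    exact (h s hs.le).congr_of_eventuallyEq
      ((lt_mem_nhds hs).mono fun y hy => if_neg (not_le.2 hy))

/-- strong solutions on a half line -/
structure St (R : H →L[ℝ] H) (a : ℝ) (g p q : ℝ → H) : Prop where
  cg : ∀ t, a ≤ t → ContinuousAt g t
  cq : ∀ t, a ≤ t → ContinuousAt q t
  d1 : ∀ t, a ≤ t → HasDerivAt (fun t => R (g t)) (p t) t
  d2 : ∀ t, a ≤ t → HasDerivAt p (q t) t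

omit [CompleteSpace H] in
theorem St.cut {R : H →L[ℝ] H} {a c M B T t₀ : ℝ} {g p q : ℝ → H} (h : St R a g p q)
    (hc : 0 ≤ c) (hT : 1 ≤ T) (ht : a + T ≤ t₀)
    (hf : ∀ t, a ≤ t → ‖q t + c • p t + g t‖ ≤ M)
    (hB : ∀ t, a ≤ t → ‖p t‖ ≤ B ∧ ‖R (g t)‖ ≤ B) :
    ∃ g' p' q' P, Cl R T c (M + (84 + 12 * c) * B / T) P (p t₀) g' p' q' := by
  have hT0 : 0 < T := by linarith
  have hM : 0 ≤ M := (norm_nonneg _).trans (hf a le_rfl)
  have hB0 : 0 ≤ B := (norm_nonneg _).trans (hB a le_rfl).1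
  set χ : ℝ → ℝ := fun s => 4 * ((s + T) / T) ^ 3 - 3 * ((s + T) / T) ^ 4 with hχ
  set χ1 : ℝ → ℝ := fun s => (12 * ((s + T) / T) ^ 2 - 12 * ((s + T) / T) ^ 3) / T with hχ1
  set χ2 : ℝ → ℝ := fun s => (24 * ((s + T) / T) - 36 * ((s + T) / T) ^ 2) / T / T with hχ2
  have dx : ∀ s, HasDerivAt (fun s => (s + T) / T) (1 / T) s := fun s =>
    ((hasDerivAt_id s).add_const T).div_const T
  have dχ : ∀ t, HasDerivAt χ (χ1 t) t := by
    intro t
    have := (((dx t).pow 3).const_mul 4).sub (((dx t).pow 4).const_mul 3)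
    refine HasDerivAt.congr_deriv this ?_
    simp only [hχ1]; norm_num; ring
  have dχ1 : ∀ t, HasDerivAt χ1 (χ2 t) t := by
    intro t
    have := ((((dx t).pow 2).const_mul 12).sub (((dx t).pow 3).const_mul 12)).div_const T
    refine HasDerivAt.congr_deriv this ?_
    simp only [hχ2]; norm_num; ring
  have cχ2 : Continuous χ2 := by simp only [hχ2]; fun_prop
  have z0 : χ (-T) = 0 := by simp [hχ]
  have z1 : χ1 (-T) = 0 := by simp [hχ1]
  have z2 : χ2 (-T) = 0 := by simp [hχ2]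
  have sh : ∀ s, -T ≤ s → a ≤ t₀ + s := fun s hs => by linarith
  have e1 : ∀ s, -T ≤ s → HasDerivAt (fun s => R (g (t₀ + s))) (p (t₀ + s)) s := fun s hs =>
    (h.d1 _ (sh s hs)).comp_const_add t₀ s
  have e2 : ∀ s, -T ≤ s → HasDerivAt (fun s => p (t₀ + s)) (q (t₀ + s)) s := fun s hs =>
    (h.d2 _ (sh s hs)).comp_const_add t₀ s
  have e3 : ∀ s, -T ≤ s → ContinuousAt (fun s => g (t₀ + s)) s := fun s hs =>
    ContinuousAt.comp (f := fun s => t₀ + s) (h.cg _ (sh s hs)) (by fun_prop)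
  have e4 : ∀ s, -T ≤ s → ContinuousAt (fun s => q (t₀ + s)) s := fun s hs =>
    ContinuousAt.comp (f := fun s => t₀ + s) (h.cq _ (sh s hs)) (by fun_prop)
  have bd : ∀ s ∈ Icc (-T) 0, 0 ≤ χ s ∧ χ s ≤ 1 ∧ |χ1 s| ≤ 12 / T ∧ |χ2 s| ≤ 60 / T := by
    intro s hs
    have hx0 : 0 ≤ (s + T) / T := div_nonneg (by linarith [hs.1]) hT0.le
    have hx1 : (s + T) / T ≤ 1 := (div_le_one hT0).2 (by linarith [hs.2])
    simp only [hχ, hχ1, hχ2]
    generalize (s + T) / T = x at hx0 hx1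
    have x2 : x ^ 2 ≤ 1 := by nlinarith
    have x3 : 0 ≤ x ^ 3 := by positivity
    have x4 : x ^ 3 ≤ x ^ 2 := by nlinarith [sq_nonneg x]
    refine ⟨by nlinarith, ?_, ?_, ?_⟩
    · have : 1 - (4 * x ^ 3 - 3 * x ^ 4) = (1 - x) ^ 2 * (1 + 2 * x + 3 * x ^ 2) := by ring
      have h2 : 0 ≤ (1 - x) ^ 2 * (1 + 2 * x + 3 * x ^ 2) := by positivity
      linarith
    · rw [abs_div, abs_of_pos hT0]
      apply div_le_div_of_nonneg_right _ hT0.le
      rw [abs_le]; constructor <;> nlinarith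
    · rw [abs_div, abs_of_pos hT0]
      apply div_le_div_of_nonneg_right _ hT0.le
      rw [abs_div, abs_of_pos hT0, div_le_iff₀ hT0, abs_le]; constructor <;> nlinarith
  refine ⟨fun s => if s ≤ -T then 0 else χ s • g (t₀ + s),
    fun s => if s ≤ -T then 0 else χ s • p (t₀ + s) + χ1 s • R (g (t₀ + s)),
    fun s => if s ≤ -T then 0 else
      χ s • q (t₀ + s) + (2 * χ1 s) • p (t₀ + s) + χ2 s • R (g (t₀ + s)),
    B + 12 / T * B, ?_, ?_, fun s => ?_, fun s => ?_, by simp, by simp, fun s hs => ?_,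
    fun s hs => ?_, ?_⟩
  · exact zc (fun s hs => (dχ s).continuousAt.smul (e3 s hs)) (by simp [z0])
  · exact zc (fun s hs => (((dχ s).continuousAt.smul (e4 s hs)).add
      ((continuousAt_const.mul (dχ1 s).continuousAt).smul (e2 s hs).continuousAt)).add
      (cχ2.continuousAt.smul (e1 s hs).continuousAt)) (by simp [z0, z1, z2])
  · have := zd (φ := fun s => χ s • R (g (t₀ + s)))
      (φ' := fun s => χ s • p (t₀ + s) + χ1 s • R (g (t₀ + s)))
      (fun s hs => (dχ s).smul (e1 s hs)) (by simp [z0]) (by simp [z0, z1]) s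
    convert this using 2
    split_ifs <;> simp
  · refine zd (φ := fun s => χ s • p (t₀ + s) + χ1 s • R (g (t₀ + s)))
      (φ' := fun s => χ s • q (t₀ + s) + (2 * χ1 s) • p (t₀ + s) + χ2 s • R (g (t₀ + s)))
      (fun s hs => ?_) (by simp [z0, z1]) (by simp [z0, z1, z2]) s
    refine HasDerivAt.congr_deriv (((dχ s).smul (e2 s hs)).add ((dχ1 s).smul (e1 s hs))) ?_
    module
  · obtain ⟨c0, c1, c2, c3⟩ := bd s hs
    split_ifs with h0
    · simp only [smul_zero, add_zero, norm_zero]; positivity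
    have key : χ s • q (t₀ + s) + (2 * χ1 s) • p (t₀ + s) + χ2 s • R (g (t₀ + s)) +
        c • (χ s • p (t₀ + s) + χ1 s • R (g (t₀ + s))) + χ s • g (t₀ + s) =
        χ s • (q (t₀ + s) + c • p (t₀ + s) + g (t₀ + s)) + (2 * χ1 s) • p (t₀ + s) +
          (χ2 s + c * χ1 s) • R (g (t₀ + s)) := by module
    rw [key]
    obtain ⟨b1, b2⟩ := hB _ (sh s hs.1)
    have n1 : ‖χ s • (q (t₀ + s) + c • p (t₀ + s) + g (t₀ + s))‖ ≤ M := by
      rw [norm_smul, Real.norm_eq_abs, abs_of_nonneg c0]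
      have := mul_le_mul c1 (hf _ (sh s hs.1)) (norm_nonneg _) zero_le_one
      linarith
    have n3 : ‖(2 * χ1 s) • p (t₀ + s)‖ ≤ 2 * (12 / T) * B := by
      rw [norm_smul, Real.norm_eq_abs, abs_mul, abs_two]
      exact mul_le_mul (by linarith) b1 (norm_nonneg _) (by positivity)
    have n4 : ‖(χ2 s + c * χ1 s) • R (g (t₀ + s))‖ ≤ (60 / T + c * (12 / T)) * B := by
      rw [norm_smul, Real.norm_eq_abs]
      refine mul_le_mul ((abs_add_le _ _).trans (add_le_add c3 ?_)) b2 (norm_nonneg _)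
        (by positivity)
      rw [abs_mul, abs_of_nonneg hc]
      exact mul_le_mul_of_nonneg_left c2 hc
    have n5 : 2 * (12 / T) * B + (60 / T + c * (12 / T)) * B = (84 + 12 * c) * B / T := by ring
    refine (norm_add_le _ _).trans ?_
    have := norm_add_le (χ s • (q (t₀ + s) + c • p (t₀ + s) + g (t₀ + s)))
      ((2 * χ1 s) • p (t₀ + s))
    linarith
  · obtain ⟨c0, c1, c2, c3⟩ := bd s hs
    split_ifs with h0
    · simp only [norm_zero]; positivity
    obtain ⟨b1, b2⟩ := hB _ (sh s hs.1)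
    refine (norm_add_le _ _).trans (add_le_add ?_ ?_)
    · rw [norm_smul, Real.norm_eq_abs, abs_of_nonneg c0]
      have := mul_le_mul c1 b1 (norm_nonneg _) zero_le_one
      linarith
    · rw [norm_smul, Real.norm_eq_abs]
      exact mul_le_mul c2 b2 (norm_nonneg _) (by positivity)
  · have : ¬ (0 : ℝ) ≤ -T := by linarith
    simp only [if_neg this, hχ, hχ1, zero_add, div_self hT0.ne', add_zero]
    norm_num

omit [CompleteSpace H] in
theorem form_deriv {R : H →L[ℝ] H} (hR : Pos R) {g : ℝ → H} {p : H} {t : ℝ}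
    (cg : ContinuousAt g t) (d : HasDerivAt (fun t => R (g t)) p t) :
    HasDerivAt (fun t => ⟪g t, R (g t)⟫) (2 * ⟪g t, p⟫) t := by
  rw [hasDerivAt_iff_tendsto_slope] at d ⊢
  have h1 : Tendsto (fun s => g s + g t) (𝓝[≠] t) (𝓝 (g t + g t)) :=
    (cg.tendsto.mono_left nhdsWithin_le_nhds).add_const _
  have h2 := h1.inner (𝕜 := ℝ) d
  rw [inner_add_left, ← two_mul] at h2
  refine h2.congr fun s => ?_
  simp only [slope_def_module, real_inner_smul_right, inner_add_left, inner_sub_right,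
    smul_eq_mul]
  rw [← hR.symm (g s) (g t), real_inner_comm (R (g s)) (g t)]
  ring

omit [CompleteSpace H] in
theorem St.energy {R : H →L[ℝ] H} (hR : Pos R) {b c : ℝ} (hb : 0 < b) (hc : 0 < c)
    (hco : ∀ x, b * ‖R x‖ ^ 2 ≤ ⟪x, R x⟫) : ∃ C, 0 ≤ C ∧ ∀ (a m : ℝ) (g p q : ℝ → H),
      St R a g p q → (∀ t, a ≤ t → ‖q t + c • p t + g t‖ ≤ m) → ‖p a‖ ≤ m →
      ⟪g a, R (g a)⟫ ≤ m ^ 2 → ∀ t, a ≤ t → ‖p t‖ ≤ C * m ∧ ‖R (g t)‖ ≤ C * m := by
  obtain ⟨κ, hκc⟩ : ∃ κ, c = 2 * κ := ⟨c / 2, by ring⟩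
  have hκ : 0 < κ := by linarith
  set Λ := 2 + 3 * κ ^ 2 / b with hΛ
  have hΛ0 : 0 < Λ := by positivity
  set γ := κ / Λ with hγ
  have hγ0 : 0 < γ := by positivity
  set D := 2 * Λ + 1 / γ ^ 2 + 1 with hD
  have hD1 : 1 ≤ D := by
    have : 0 ≤ 2 * Λ + 1 / γ ^ 2 := by positivity
    linarith
  refine ⟨(2 + 1 / κ) * D, by positivity, fun a m g p q h hf hp0 ha0 => ?_⟩
  have hm : 0 ≤ m := (norm_nonneg _).trans hp0
  set W : ℝ → ℝ := fun t => ⟪p t + κ • R (g t), p t + κ • R (g t)⟫ + ⟪g t, R (g t)⟫ +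
    κ ^ 2 * ⟪R (g t), R (g t)⟫ with hW
  have up : ∀ t, W t ≤ Λ * (‖p t‖ ^ 2 + ⟪g t, R (g t)⟫) := by
    intro t
    have h1 := hco (g t)
    have h2 : ‖p t + κ • R (g t)‖ ≤ ‖p t‖ + κ * ‖R (g t)‖ := by
      refine (norm_add_le _ _).trans ?_
      rw [norm_smul, Real.norm_eq_abs, abs_of_pos hκ]
    have h3 : ‖p t + κ • R (g t)‖ ^ 2 ≤ 2 * ‖p t‖ ^ 2 + 2 * κ ^ 2 * ‖R (g t)‖ ^ 2 := by
      have := pow_le_pow_left₀ (norm_nonneg _) h2 2
      nlinarith [sq_nonneg (‖p t‖ - κ * ‖R (g t)‖)]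
    have h4 : 3 * κ ^ 2 * ‖R (g t)‖ ^ 2 ≤ 3 * κ ^ 2 / b * ⟪g t, R (g t)⟫ := by
      rw [div_mul_eq_mul_div, le_div_iff₀ hb]
      nlinarith [sq_nonneg κ]
    have h5 : 0 ≤ ⟪g t, R (g t)⟫ := le_trans (by positivity) h1
    have h6 : 0 ≤ 3 * κ ^ 2 / b * ‖p t‖ ^ 2 := by positivity
    simp only [hW, real_inner_self_eq_norm_sq, hΛ]
    nlinarith
  have dW : ∀ t, a ≤ t → HasDerivAt W (-(2 * κ) * (‖p t‖ ^ 2 + ⟪g t, R (g t)⟫) +
      2 * ⟪p t + κ • R (g t), q t + c • p t + g t⟫) t := by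
    intro t ht
    have h1 := (h.d2 t ht).add ((h.d1 t ht).const_smul κ)
    have h2 := ((h1.inner ℝ h1).add (form_deriv hR (h.cg t ht) (h.d1 t ht))).add
      (((h.d1 t ht).inner ℝ (h.d1 t ht)).const_mul (κ ^ 2))
    refine HasDerivAt.congr_deriv h2 ?_
    simp only [Pi.add_apply, Pi.smul_apply, inner_add_left, inner_add_right, real_inner_smul_left,
      real_inner_smul_right, real_inner_self_eq_norm_sq, hκc, real_inner_comm (p t) (q t),
      real_inner_comm (p t) (R (g t)), real_inner_comm (p t) (g t),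
      real_inner_comm (q t) (R (g t)), real_inner_comm (g t) (R (g t))]
    ring
  have low : ∀ t, ‖p t + κ • R (g t)‖ ^ 2 ≤ W t ∧ (κ * ‖R (g t)‖) ^ 2 ≤ W t := by
    intro t
    have h5 : 0 ≤ ⟪g t, R (g t)⟫ := le_trans (by positivity) (hco (g t))
    simp only [hW, real_inner_self_eq_norm_sq]
    constructor
    · nlinarith [sq_nonneg (κ * ‖R (g t)‖)]
    · nlinarith [sq_nonneg ‖p t + κ • R (g t)‖]
  have de : ∀ t, HasDerivAt (fun t => exp (γ * t)) (exp (γ * t) * γ) t := fun t => by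
    simpa using ((hasDerivAt_id t).const_mul γ).exp
  have anti : AntitoneOn (fun t => exp (γ * t) * (W t - m ^ 2 / γ ^ 2)) (Ici a) := by
    refine antitoneOn_of_deriv_nonpos (convex_Ici a)
      (fun t ht => ((de t).mul ((dW t ht).sub_const _)).continuousAt.continuousWithinAt)
      (fun t ht => ((de t).mul ((dW t (interior_subset ht)).sub_const
        _)).differentiableAt.differentiableWithinAt) fun t ht => ?_
    have ht' : a ≤ t := interior_subset ht
    have := ((de t).mul ((dW t ht').sub_const (m ^ 2 / γ ^ 2))).deriv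
    refine le_of_eq_of_le this ?_
    have h1 : ⟪p t + κ • R (g t), q t + c • p t + g t⟫ ≤ ‖p t + κ • R (g t)‖ * m :=
      (real_inner_le_norm _ _).trans (mul_le_mul_of_nonneg_left (hf t ht') (norm_nonneg _))
    have h2 : 2 * (‖p t + κ • R (g t)‖ * m) ≤ γ * W t + γ * (m ^ 2 / γ ^ 2) := by
      have e : γ * (m ^ 2 / γ ^ 2) = γ * (m / γ) ^ 2 := by ring
      have e2 : m = γ * (m / γ) := by field_simp
      have := mul_le_mul_of_nonneg_left (low t).1 hγ0.le
      rw [e]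
      conv_lhs => rw [e2]
      nlinarith [mul_nonneg hγ0.le (sq_nonneg (‖p t + κ • R (g t)‖ - m / γ))]
    have h3 : γ * W t ≤ κ * (‖p t‖ ^ 2 + ⟪g t, R (g t)⟫) := by
      have := mul_le_mul_of_nonneg_left (up t) hγ0.le
      rw [← mul_assoc, hγ, div_mul_cancel₀ _ hΛ0.ne'] at this
      exact this
    have h4 := exp_pos (γ * t)
    rw [mul_assoc, ← mul_add]
    apply mul_nonpos_of_nonneg_of_nonpos h4.le
    nlinarith
  intro t ht
  have h1 := anti (mem_Ici.2 le_rfl) ht ht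
  have h2 : W a ≤ 2 * Λ * m ^ 2 := by
    have := pow_le_pow_left₀ (norm_nonneg _) hp0 2
    have h3 := mul_le_mul_of_nonneg_left (add_le_add this ha0) hΛ0.le
    linarith [up a]
  have h3 : W t ≤ (D * m) ^ 2 := by
    have e1 : exp (γ * a) ≤ exp (γ * t) := exp_le_exp.2 (mul_le_mul_of_nonneg_left ht hγ0.le)
    have e2 : 0 ≤ m ^ 2 / γ ^ 2 := by positivity
    have e3 : W t - m ^ 2 / γ ^ 2 ≤ 2 * Λ * m ^ 2 := by
      by_contra hcon
      push Not at hcon
      have e4 : 0 ≤ 2 * Λ * m ^ 2 := by positivity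
      have e5 := exp_pos (γ * a)
      simp only at h1
      nlinarith
    have e6 : D * m ^ 2 ≤ (D * m) ^ 2 := by nlinarith [sq_nonneg m]
    have e7 : D * m ^ 2 = 2 * Λ * m ^ 2 + m ^ 2 / γ ^ 2 + m ^ 2 := by rw [hD]; ring
    nlinarith [sq_nonneg m]
  have hDm : 0 ≤ D * m := by positivity
  have b1 := (abs_le_of_sq_le_sq' ((low t).1.trans h3) hDm).2
  have b2 := (abs_le_of_sq_le_sq' ((low t).2.trans h3) hDm).2
  have b3 : 0 ≤ 1 / κ * (D * m) := by positivity
  constructor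
  · have : ‖p t‖ ≤ ‖p t + κ • R (g t)‖ + κ * ‖R (g t)‖ := by
      have := norm_sub_le (p t + κ • R (g t)) (κ • R (g t))
      rwa [add_sub_cancel_right, norm_smul, Real.norm_eq_abs, abs_of_pos hκ] at this
    nlinarith
  · have : ‖R (g t)‖ ≤ 1 / κ * (D * m) := by
      rw [one_div, ← div_eq_inv_mul, le_div_iff₀ hκ]; linarith
    nlinarith

end Pool.Agent.H.MP_8bcfe8_an
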