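import Pool.Agent.H.MP_8bcfe8_an.D

open Set Real Filter Topology MeasureTheory LinearPMap
open scoped RealInnerProductSpace

namespace Pool.Agent.H.MP_8bcfe8_an

variable {H : Type*} [NormedAddCommGroup H] [InnerProductSpace ℝ H] [CompleteSpace H]

theorem exR {A : H →ₗ.[ℝ] H} (hA : IsSelfAdjoint A) {b : ℝ} (hb : 0 < b)
    (hco : ∀ v : A.domain, b * ‖(v : H)‖ ^ 2 ≤ ⟪A v, v⟫) :
    ∃ R : H →L[ℝ] H, Pos R ∧ (∀ x, b * ‖R x‖ ^ 2 ≤ ⟪x, R x⟫) ∧
      (∀ h, ∃ x : A.domain, (x : H) = R h ∧ A x = h) ∧ ∀ x : A.domain, R (A x) = x := by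
  have hd := hA.dense_domain
  have hA' : A† = A := hA
  have hsym : A.IsFormalAdjoint A := by
    have := adjoint_isFormalAdjoint hd
    rwa [hA'] at this
  have hn : ∀ v : A.domain, ‖(v : H)‖ ≤ b⁻¹ * ‖A v‖ := by
    intro v
    have h1 := (hco v).trans (real_inner_le_norm _ _)
    rw [← div_eq_inv_mul, le_div_iff₀ hb]
    rcases (norm_nonneg (v : H)).eq_or_lt with h0 | h0
    · rw [← h0, zero_mul]; exact norm_nonneg _
    · nlinarith
  have inj : Function.Injective A.toFun := by
    rw [← LinearMap.ker_eq_bot, LinearMap.ker_eq_bot']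
    intro v hv
    have := hn v
    rw [show A v = 0 from hv, norm_zero, mul_zero] at this
    exact Subtype.ext (norm_le_zero_iff.1 this)
  have surj : Function.Surjective A.toFun := by
    intro h
    let e := LinearEquiv.ofInjective A.toFun inj
    let L0 : LinearMap.range A.toFun →ₗ[ℝ] H := A.domain.subtype.comp e.symm.toLinearMap
    have he : ∀ x : A.domain, ((e x : LinearMap.range A.toFun) : H) = A x := fun x => rfl
    let L : LinearMap.range A.toFun →L[ℝ] H := L0.mkContinuous b⁻¹ fun z => by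
      obtain ⟨x, rfl⟩ := e.surjective z
      simpa [L0, ← he] using hn x
    obtain ⟨ψ, hψ, -⟩ := exists_extension_norm_eq (LinearMap.range A.toFun)
      ((innerSL ℝ h).comp L)
    let y := (InnerProductSpace.toDual ℝ H).symm ψ
    have hy : ∀ x : A.domain, ⟪h, (x : H)⟫ = ⟪y, A x⟫ := by
      intro x
      rw [InnerProductSpace.toDual_symm_apply, ← he, hψ]
      simp [L, L0]
    have hm : y ∈ A†.domain := mem_adjoint_domain_of_exists y ⟨h, hy⟩
    have h1 := adjoint_apply_eq hd ⟨y, hm⟩ hy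
    have hle : A† ≤ A := le_of_eq hA'
    exact ⟨⟨y, hle.1 hm⟩, (hle.2 (x := ⟨y, hm⟩) (y := ⟨y, hle.1 hm⟩) rfl).symm.trans h1⟩
  let e := LinearEquiv.ofBijective A.toFun ⟨inj, surj⟩
  have he : ∀ x : A.domain, e x = A x := fun x => rfl
  let R : H →L[ℝ] H := (A.domain.subtype.comp e.symm.toLinearMap).mkContinuous b⁻¹ fun z => by
    obtain ⟨x, rfl⟩ := e.surjective z
    simpa [← he] using hn x
  have hR : ∀ x : A.domain, R (A x) = x := fun x => by simp [R, ← he]
  have hex : ∀ h, ∃ x : A.domain, (x : H) = R h ∧ A x = h := by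
    intro h
    obtain ⟨x, rfl⟩ := surj h
    exact ⟨x, (hR x).symm, rfl⟩
  have hc : ∀ x, b * ‖R x‖ ^ 2 ≤ ⟪x, R x⟫ := by
    intro h
    obtain ⟨x, h1, h2⟩ := hex h
    rw [← h1]
    conv_rhs => rw [← h2]
    exact hco x
  refine ⟨R, ⟨fun x y => ?_, fun x => ?_, ?_⟩, hc, hex, hR⟩
  · obtain ⟨u, h1, h2⟩ := hex x
    obtain ⟨v, h3, h4⟩ := hex y
    rw [← h1, ← h3]
    conv_lhs => rw [← h4]
    conv_rhs => rw [← h2]
    exact (hsym u v).symm
  · rw [real_inner_comm]
    exact le_trans (by positivity) (hc x)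
  · exact hd.mono fun x hx => ⟨A ⟨x, hx⟩, hR ⟨x, hx⟩⟩

omit [InnerProductSpace ℝ H] [CompleteSpace H] in
theorem ii {f : ℝ → H} (hf : LocallyIntegrableOn f (Ioi 0)) {s t : ℝ} (hs : 0 < s) (ht : 0 < t) :
    IntervalIntegrable f volume s t :=
  (hf.integrableOn_compact_subset (fun _ hx => (lt_min hs ht).trans_le hx.1)
    isCompact_uIcc).intervalIntegrable

omit [CompleteSpace H] in
theorem avg_cont {f : ℝ → H} (hf : LocallyIntegrableOn f (Ioi 0)) {h t : ℝ} (hh : 0 < h)
    (ht : 0 < t) : ContinuousAt (fun t => ∫ r in t..t + h, f r) t := by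
  have prim : ∀ s, 0 < s → ContinuousAt (fun x => ∫ r in (1 : ℝ)..x, f r) s := by
    intro s hs
    have h1 : IntervalIntegrable f volume (min 1 (s / 2)) (max 1 (s + 1)) :=
      ii hf (lt_min one_pos (half_pos hs)) (lt_max_of_lt_left one_pos)
    have h2 := intervalIntegral.continuousWithinAt_primitive (a := 1) (b₀ := s) (b₁ := s / 2)
      (b₂ := s + 1) (measure_singleton s) h1
    exact h2.continuousAt (Icc_mem_nhds (by linarith) (by linarith))
  have h1 := (ContinuousAt.comp (f := fun x => x + h) (prim (t + h) (by linarith))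
    (by fun_prop)).sub (prim t ht)
  refine h1.congr ((lt_mem_nhds ht).mono fun s hs => ?_)
  exact intervalIntegral.integral_interval_sub_left (ii hf one_pos (by linarith)) (ii hf one_pos hs)

theorem avg_deriv {u : ℝ → H} (hu : ContinuousOn u (Ioi 0)) {h t : ℝ} (hh : 0 < h)
    (ht : 0 < t) : HasDerivAt (fun t => ∫ r in t..t + h, u r) (u (t + h) - u t) t := by
  have hf := hu.locallyIntegrableOn (μ := volume) measurableSet_Ioi
  have prim : ∀ s, 0 < s → HasDerivAt (fun x => ∫ r in (1 : ℝ)..x, u r) (u s) s := fun s hs =>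
    intervalIntegral.integral_hasDerivAt_right (ii hf one_pos hs)
      (hu.stronglyMeasurableAtFilter isOpen_Ioi s hs) (hu.continuousAt (Ioi_mem_nhds hs))
  have h1 := ((prim (t + h) (by linarith)).comp_add_const t h).sub (prim t ht)
  refine h1.congr_of_eventuallyEq ((lt_mem_nhds ht).mono fun s hs => ?_)
  exact (intervalIntegral.integral_interval_sub_left (ii hf one_pos (by linarith))
    (ii hf one_pos hs)).symm

theorem RS.deriv {R : H →L[ℝ] H} {c : ℝ} {g p f : ℝ → H} (h : RS R c g p f) (t : ℝ) :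
    HasDerivAt (fun t => R (g t)) (p t) t := by
  have h1 := (h.cp.integral_hasStrictDerivAt 0 t).hasDerivAt.add_const (R (g 0))
  convert h1 using 1
  funext s
  rw [intervalIntegral.integral_eq_sub_of_hasDeriv_right (f := fun t => R (g t))
    (R.continuous.comp h.cg).continuousOn
    (fun x _ => (h.d1 x).mono Ioi_subset_Ici_self) (h.cp.intervalIntegrable _ _)]
  simp

end Pool.Agent.H.MP_8bcfe8_an
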