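import Pool.Agent.H.MP_8bcfe8_an.Res

open Filter Topology Real MeasureTheory Set RealInnerProductSpace Pool.Agent.H.MP_38ba9c_an

namespace Pool.Agent.H.MP_8bcfe8_an

lemma acLe {X Y : Type*} [PseudoMetricSpace X] [PseudoMetricSpace Y] {F : ℝ → X} {G : ℝ → Y}
    {a b : ℝ} (hG : AbsolutelyContinuousOnInterval G a b)
    (h : ∀ x ∈ uIcc a b, ∀ y ∈ uIcc a b, dist (F x) (F y) ≤ dist (G x) (G y)) :
    AbsolutelyContinuousOnInterval F a b := by
  apply squeeze_zero' (.of_forall fun _ => Finset.sum_nonneg fun _ _ => dist_nonneg) ?_ hG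
  rw [eventually_inf_principal]
  exact .of_forall fun E hE => Finset.sum_le_sum fun i hi => h _ (hE.1 i hi).1 _ (hE.1 i hi).2

variable {H : Type*} [NormedAddCommGroup H] [InnerProductSpace ℝ H]

lemma acIn {p q : ℝ → H} {a b : ℝ} (hp : AbsolutelyContinuousOnInterval p a b)
    (hq : AbsolutelyContinuousOnInterval q a b) :
    AbsolutelyContinuousOnInterval (fun s => ⟪p s, q s⟫) a b := by
  have n : ∀ {r : ℝ → H}, AbsolutelyContinuousOnInterval r a b →
      AbsolutelyContinuousOnInterval (fun s => ‖r s‖ * ‖r s‖) a b := fun hr =>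
    (acLe hr fun _ _ _ _ => dist_norm_norm_le _ _ |>.trans_eq (dist_eq_norm _ _).symm).fun_mul
      (acLe hr fun _ _ _ _ => dist_norm_norm_le _ _ |>.trans_eq (dist_eq_norm _ _).symm)
  refine acLe (((n (hp.fun_add hq)).fun_sub (n (hp.fun_sub hq))).const_mul (1 / 4))
    fun x _ y _ => le_of_eq ?_
  congr 1 <;> rw [norm_add_mul_self_real, norm_sub_mul_self_real] <;> ring

variable [CompleteSpace H] {B : H →L[ℝ] H} {b c K : ℝ}

lemma upperG (I : Inv B b) (hc : 0 < c) (G : Good B (b / (1 + 2 * b)) c K) :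
    ∃ ρ, 0 < ρ ∧ ∀ {f u v : ℝ → H} {T M E : ℝ}, 0 < T → 0 ≤ M →
      (∀ s t, 0 < s → 0 < t → IntervalIntegrable f volume s t) →
      (∀ s, 0 < s → HasDerivAt u (v s) s) → ContinuousOn v (Ioi 0) →
      (∀ s t, 0 < s → 0 < t → B (v t) - B (v s) = ∫ r in s..t, (B (f r) - c • B (v r) - u r)) →
      (∀ x r, 0 ≤ r → ⟪x, B x⟫ ≤ r ^ 2 → |⟪u T, x⟫| ≤ E * r) → (∀ s, T ≤ s → ‖f s‖ ≤ M) →
      ∀ t, T ≤ t → ‖v t‖ ≤ |K| * M + (2 * ‖v T‖ + |E|) * exp (-ρ * (t - T)) := by
  have b0 := I.b0
  obtain ⟨r, r0, hr⟩ := rate (B := B) (β := b / (1 + 2 * b)) (c' := c) (by positivity) hc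
  refine ⟨r / 8, by positivity, fun {f u v T M E} hT M0 hf hu hv he hE hM t ht => ?_⟩
  have sub : Icc T t ⊆ Ioi 0 := fun s hs => hT.trans_le hs.1
  have cu : ContinuousOn u (Ioi 0) := fun s hs => (hu s hs).continuousAt.continuousWithinAt
  obtain ⟨U, hU⟩ := isCompact_Icc.exists_bound_of_continuousOn (cu.mono sub)
  have ig : IntervalIntegrable (fun r => B (f r) - c • B (v r) - u r) volume T t := by
    refine IntervalIntegrable.sub (.sub ⟨B.integrable_comp (hf T t hT (hT.trans_le ht)).1,
      B.integrable_comp (hf T t hT (hT.trans_le ht)).2⟩ ?_) ?_ <;>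
      refine ContinuousOn.intervalIntegrable_of_Icc ht ?_
    exacts [(B.continuous.comp_continuousOn (hv.mono sub)).const_smul c, cu.mono sub]
  have aB : AbsolutelyContinuousOnInterval (fun s => B (v s)) T t := by
    refine acLe (ig.norm.absolutelyContinuousOnInterval_intervalIntegral (c := T) left_mem_uIcc)
      fun x hx y hy => ?_
    rw [dist_eq_norm, Real.dist_eq, he y x (sub (uIcc_of_le ht ▸ hy)) (sub (uIcc_of_le ht ▸ hx)),
      intervalIntegral.integral_interval_sub_left
      (ig.norm.mono_set (uIcc_subset_uIcc left_mem_uIcc hx))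
      (ig.norm.mono_set (uIcc_subset_uIcc left_mem_uIcc hy))]
    exact intervalIntegral.norm_integral_le_abs_integral_norm
  have dB : ∀ᵐ s, s ∈ Icc T t → HasDerivAt (fun s => B (v s)) (B (f s) - c • B (v s) - u s) s := by
    filter_upwards [ig.ae_hasDerivAt_integral] with s hs h1
    refine ((hs (uIcc_of_le ht ▸ h1) T left_mem_uIcc).const_add (B (v T))).congr_of_eventuallyEq ?_
    filter_upwards [Ioi_mem_nhds (sub h1)] with x hx
    rw [← he T x hT hx]
    abel
  set Θ := |K| * M + (2 * ‖v T‖ + |E|) * exp (-(r / 8) * (t - T)) with hΘ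
  have key : ∀ x, ⟪B (B x), v t⟫ ≤ ‖B (B x)‖ * Θ := fun x => le_of_forall_pos_le_add fun η hη => by
    obtain ⟨δ0, d0, hG⟩ := G x (η / 2 / (M + 1)) (by positivity)
    obtain ⟨δ1, d1, d2, d3⟩ := small (2 * ‖x‖ * U * (t - T)) (half_pos hη)
    have d4 := lt_min d0 d1
    obtain ⟨L, R⟩ := res I d4 ((min_le_right _ _).trans d2)
    have O := hr c ⟨le_rfl, le_rfl⟩ R
    obtain ⟨k, h, S, k0, h0⟩ := exist L c (G := 0) continuous_zero x
    have S1 := S.map R
    have S2 := S1.map R
    have g1 := hG _ L _ _ d4 (min_le_left _ _) R S2 (by simp [k0]) (by simp [h0]) _ (sub_nonneg.2 ht)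
    have g2 := hom O S2 (by simp [k0]) (sub_nonneg.2 ht)
    simp only [h0] at g2
    have ck := S.cw
    have ch := S.cp
    have d5 := fun s => (S1.dp (t - s)).scomp s ((hasDerivAt_id' s).const_sub t)
    have d6 := fun s => L.hasFDerivAt.comp_hasDerivAt s
      ((S2.dw (t - s)).scomp s ((hasDerivAt_id' s).const_sub t))
    have a1 : AbsolutelyContinuousOnInterval
        (fun s => ⟪B (h (t - s)), B (v s)⟫ - ⟪L (B (B (k (t - s)))), u s⟫) T t :=
      (acIn (acOf ht (by fun_prop) fun s _ => (d5 s).hasDerivWithinAt) aB).fun_sub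
        (acIn (acOf ht (by fun_prop) fun s _ => (d6 s).hasDerivWithinAt)
          (acOf ht (hv.mono sub) fun s hs => (hu s (sub hs)).hasDerivWithinAt))
    have a2 := intervalIntegral.integral_mono_ae_restrict ht a1.intervalIntegrable_deriv
      (g := fun s => M * ‖B (B (h (t - s)))‖ + min δ0 δ1 * (2 * ‖x‖ * U))
      (Continuous.intervalIntegrable (by fun_prop) _ _) ((ae_restrict_iff' measurableSet_Icc).2 (by
        filter_upwards [dB] with s hs h1
        refine (HasDerivAt.congr_deriv (g' := ⟪B (B (h (t - s))), f s⟫ -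
          min δ0 δ1 * ⟪B (L (h (t - s))), u s⟫)
          (((d5 s).inner ℝ (hs h1)).fun_sub ((d6 s).inner ℝ (hu s (sub h1)))) (by
          have e := (congrArg B (R.r (h (t - s)))).trans (by rw [map_sub, map_smul])
          simp only [Function.comp, Pi.zero_apply, inner_sub_left, inner_sub_right, R.cm, e,
            real_inner_smul_left, real_inner_smul_right, map_smul, ← I.sym, inner_zero_left,
            map_sub, map_zero]
          ring)).deriv.trans_le ?_
        have q1 := (real_inner_le_norm (B (B (h (t - s)))) (f s)).trans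
          (mul_le_mul_of_nonneg_left (hM s h1.1) (norm_nonneg _))
        have q2 : ‖h (t - s)‖ ≤ 2 * ‖x‖ := (hom O S k0 (sub_nonneg.2 h1.2)).1.trans (by
          rw [h0]
          exact mul_le_of_le_one_right (by positivity) (exp_le_one_iff.2 (by nlinarith [h1.2])))
        have q3 := (abs_le.1 ((abs_real_inner_le_norm (B (L (h (t - s)))) (u s)).trans
          (mul_le_mul ((R.n2 _).trans q2) (hU s h1) (norm_nonneg _) (by positivity)))).1
        nlinarith [mul_le_mul_of_nonneg_left q3 d4.le]))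
    rw [a1.integral_deriv_eq_sub, intervalIntegral.integral_add
      (Continuous.intervalIntegrable (by fun_prop) _ _) intervalIntegrable_const,
      intervalIntegral.integral_const_mul, intervalIntegral.integral_comp_sub_left
      (fun s => ‖B (B (h s))‖), intervalIntegral.integral_const] at a2
    simp only [sub_self, h0, k0, map_zero, inner_zero_left, smul_eq_mul, ← I.sym] at a2
    have q1 := (real_inner_le_norm (B (B (h (t - T)))) (v T)).trans
      (mul_le_mul_of_nonneg_right g2.1 (norm_nonneg _))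
    have q2 := hE (L (B (B (k (t - T))))) _ (by positivity) (le_trans (by
      rw [R.r, inner_sub_right, real_inner_smul_right]
      exact sub_le_self _ (mul_nonneg d4.le real_inner_self_nonneg)) g2.2.2)
    have q3 := d3 _ d4.le (min_le_right _ _)
    have q4 : M * (η / 2 / (M + 1)) ≤ η / 2 := by
      rw [← mul_div_assoc, div_le_iff₀ (by positivity)]; nlinarith
    have q5 := mul_le_mul_of_nonneg_left g1 M0
    have q6 := mul_le_mul_of_nonneg_right (le_abs_self K) (mul_nonneg M0 (norm_nonneg (B (B x))))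
    have q7 := mul_le_mul_of_nonneg_right (le_abs_self E)
      (mul_nonneg (norm_nonneg (B (B x))) (exp_pos (-(r / 8) * (t - T))).le)
    rw [real_inner_comm] at q2
    simp only [hΘ]
    nlinarith [(abs_le.1 q2).1]
  have key2 : ⟪v t, v t⟫ ≤ ‖v t‖ * Θ := (I.dense.comp I.dense B.continuous).induction_on
    (p := fun y => ⟪y, v t⟫ ≤ ‖y‖ * Θ) (v t) (isClosed_le (by fun_prop) (by fun_prop)) key
  rw [real_inner_self_eq_norm_mul_norm] at key2
  rcases (norm_nonneg (v t)).eq_or_lt with h | h
  · rw [← h]; positivity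
  · exact le_of_mul_le_mul_left key2 h

lemma lowG (I : Inv B b) (hc : 0 < c)
    (hK : ∀ (F a p : ℝ → H) (M : ℝ), Continuous F → Continuous a →
      (∀ t, HasDerivAt (fun t => B (a t)) (p t) t) →
      (∀ t, HasDerivAt p (F t - c • p t - a t) t) → (∀ t, 0 ≤ t → ‖F t‖ ≤ M) →
      ∀ η, 0 < η → ∀ᶠ t in atTop, ‖p t‖ ≤ K * M + η) :
    Good B (b / (1 + 2 * b)) c K := by
  have b0 := I.b0
  have β0 : 0 < b / (1 + 2 * b) := by positivity
  obtain ⟨r, r0, hr⟩ := rate (B := B) (c' := c) β0 hc
  intro x η hη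
  obtain ⟨μ, μ0, μ1, μ2⟩ := small (‖B x‖ * (2 * (4 / r))) (η := η / 4) (by positivity)
  obtain ⟨L', R'⟩ := res I μ0 μ1
  set Cw := 1 / μ * (1 / μ * (4 / r / √(b / (1 + 2 * b)))) with hCw
  obtain ⟨δ0, d0, -, d1⟩ := small (‖B (B x)‖ * K * Cw) (η := η / 4) (by positivity)
  obtain ⟨θ, θ0, -, θ1⟩ := small ‖B (B x)‖ (η := η / 4) (by positivity)
  refine ⟨δ0, d0, fun δ L k h d2 d3 R S k0 h0 => ?_⟩
  have O := hr c ⟨le_rfl, le_rfl⟩ R
  have ck := S.cw
  have ch := S.cp
  have main : ∀ T, 0 < T → ∫ t in (0 : ℝ)..T, ‖h t‖ ≤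
      K * ‖B (B x)‖ + η + 16 / r * ‖h 0‖ * exp (-(r / 8) * T) := fun T hT => by
    have e0 : 0 < η / 4 / T := by positivity
    set F : ℝ → H := fun t => (1 / (‖h (T * arccos (cos (t / T)))‖ + η / 4 / T)) •
      h (T * arccos (cos (t / T))) with hF
    have cσ : Continuous fun t => h (T * arccos (cos (t / T))) :=
      ch.comp (continuous_const.mul (continuous_arccos.comp (by fun_prop)))
    have cF : Continuous F := (continuous_const.div (cσ.norm.add continuous_const)
      fun t => (add_pos_of_nonneg_of_pos (norm_nonneg _) e0).ne').smul cσ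
    have nF : ∀ t, ‖F t‖ ≤ 1 := fun t => by
      simp only [hF]
      rw [norm_smul, Real.norm_of_nonneg (by positivity), one_div_mul_eq_div,
        div_le_one (by positivity)]
      linarith
    obtain ⟨w, p, Sw, w0, p0⟩ := exist L c cF 0
    have cw := Sw.cw
    have cp := Sw.cp
    have V := fun t ht => vel O Sw w0 (C := 1) (ρ := 0) (t := t) (by linarith)
      (fun s _ => by simpa using nF s) ht
    simp only [p0, norm_zero, mul_zero, zero_add, mul_one, neg_zero, zero_mul, exp_zero] at V
    have ev := hK (fun t => B (L' (B (L' (F t)))) + δ • L' (L' (B (L (w t)))))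
      (fun t => L' (B (L' (w t)))) (fun t => B (L' (B (L' (p t))))) (1 + δ * Cw) (by fun_prop)
      (by fun_prop) (fun t => (B ∘L L' ∘L B ∘L L').hasFDerivAt.comp_hasDerivAt t (Sw.dw t))
      (fun t => HasDerivAt.congr_deriv
        ((B ∘L L' ∘L B ∘L L').hasFDerivAt.comp_hasDerivAt t (Sw.dp t)) (by
          simp only [ContinuousLinearMap.comp_apply, map_sub, map_smul, ← R'.cm, R.r]
          abel)) (fun t ht => (norm_add_le _ _).trans (add_le_add
          ((R'.n2 _).trans ((R'.n2 _).trans (nF t))) (by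
          rw [norm_smul, Real.norm_of_nonneg d2.le]
          refine mul_le_mul_of_nonneg_left ((R'.n1 _).trans (mul_le_mul_of_nonneg_left
            ((R'.n1 _).trans (mul_le_mul_of_nonneg_left ((R.n2 _).trans ?_) (by positivity)))
            (by positivity))) d2.le
          rw [le_div_iff₀ (sqrt_pos.2 β0)]
          refine (abs_le_of_sq_le_sq' ?_ (by positivity)).2
          rw [mul_pow, sq_sqrt β0.le, mul_comm]
          exact (V t ht).2.1))) θ θ0
    have tn : Tendsto (fun n : ℕ => T * (n * (2 * π))) atTop atTop :=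
      (tendsto_natCast_atTop_atTop.atTop_mul_const (by positivity)).const_mul_atTop hT
    obtain ⟨n, hn, h1⟩ := ((tn.eventually_ge_atTop T).and (tn.eventually ev)).exists
    set t := T * (n * (2 * π)) with ht
    have σs : ∀ s ∈ Icc (t - T) t, T * arccos (cos (s / T)) = t - s := fun s hs => by
      have : s / T = n * (2 * π) - (t - s) / T := by rw [ht]; field_simp; ring
      rw [this, cos_nat_mul_two_pi_sub, arccos_cos (div_nonneg (by linarith [hs.2]) hT.le)
        ((div_le_iff₀ hT).2 (by nlinarith [hs.1, pi_gt_three]))]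
      field_simp
    have dW : ∀ s, HasDerivAt (fun s => ⟪h (t - s), p s⟫ - ⟪L (k (t - s)), w s⟫)
        ⟪h (t - s), F s⟫ s := fun s => HasDerivAt.congr_deriv
      ((((S.dp (t - s)).scomp s ((hasDerivAt_id' s).const_sub t)).inner ℝ (Sw.dp s)).fun_sub
        ((L.hasFDerivAt.comp_hasDerivAt s ((S.dw (t - s)).scomp s
        ((hasDerivAt_id' s).const_sub t))).inner ℝ (Sw.dw s))) (by
        simp only [Function.comp, Pi.zero_apply, inner_sub_left, inner_sub_right,
          real_inner_smul_left, real_inner_smul_right, map_smul, ← R.sym, inner_zero_left]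
        ring)
    have i1 := incr (Γ := fun s => ⟪h (t - s), p s⟫ - ⟪L (k (t - s)), w s⟫ +
      16 / r * ‖h 0‖ * exp (-(r / 8) * (t - s)))
      (g := fun s => ⟪h (t - s), F s⟫ + 2 * ‖h 0‖ * exp (-(r / 8) * (t - s))) (sub_nonneg.2 hn)
      (by fun_prop) (fun s => HasDerivAt.congr_deriv ((dW s).fun_add
        ((((hasDerivAt_id' s).const_sub t).const_mul (-(r / 8))).exp.const_mul _))
        (by field_simp; ring)) fun s hs => by
        have := (abs_real_inner_le_norm (h (t - s)) (F s)).trans
          ((mul_le_of_le_one_right (norm_nonneg _) (nF s)).trans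
          (hom O S k0 (by linarith [hs.2])).1)
        linarith [(abs_le.1 this).1]
    have i2 := intLe (G := fun s => ‖h (t - s)‖ - η / 4 / T) (a := t - T) (b := t) (by linarith)
      (by fun_prop) (by fun_prop) dW fun s hs => by
        simp only [hF]
        rw [σs s hs, real_inner_smul_right, real_inner_self_eq_norm_sq, one_div_mul_eq_div,
          le_div_iff₀ (by positivity)]
        nlinarith
    rw [intervalIntegral.integral_sub (Continuous.intervalIntegrable (by fun_prop) _ _)
      intervalIntegrable_const, intervalIntegral.integral_comp_sub_left (fun s => ‖h s‖),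
      intervalIntegral.integral_const] at i2
    simp only [sub_self, sub_sub_cancel, k0, w0, p0, map_zero, inner_zero_left, inner_zero_right,
      smul_eq_mul, mul_div_cancel₀ _ hT.ne'] at i1 i2
    have i3 : 0 ≤ 16 / r * ‖h 0‖ * exp (-(r / 8) * (t - 0)) := by positivity
    have t0 : 0 ≤ t := hT.le.trans hn
    have j1 : ⟪h 0, p t⟫ = ⟪B (B x), B (L' (B (L' (p t))))⟫ +
        μ * ⟪B x, B (L' (p t)) + B (L' (B (L' (p t))))⟫ := by
      rw [h0, ← real_inner_smul_right, I.sym (B x), I.sym (B x), ← inner_add_right]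
      congr 1
      rw [← map_add, ← map_smul, ← map_add, R'.r (B (L' (p t))), smul_add, R'.r (p t)]
      congr 1
      abel
    have j2 := (real_inner_le_norm (B (B x)) _).trans
      (mul_le_mul_of_nonneg_left h1 (norm_nonneg _))
    have j3 := (R'.n2 _).trans (V t t0).1
    have j4 := (real_inner_le_norm (B x) _).trans (mul_le_mul_of_nonneg_left
      ((norm_add_le _ _).trans (add_le_add j3 ((R'.n2 _).trans j3))) (norm_nonneg _))
    nlinarith [mul_le_mul_of_nonneg_left j4 μ0.le, μ2 μ μ0.le le_rfl, d1 δ d2.le d3,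
      θ1 θ θ0.le le_rfl]
  intro T hT
  have l2 := ((tendsto_exp_neg_atTop_nhds_zero.comp (tendsto_id.const_mul_atTop
    (by positivity : 0 < r / 8))).const_mul (16 / r * ‖h 0‖)).const_add (K * ‖B (B x)‖ + η)
  rw [mul_zero, add_zero] at l2
  refine ge_of_tendsto l2 (((eventually_ge_atTop T).and (eventually_gt_atTop 0)).mono fun U hU =>
    le_trans ?_ ((main U hU.2).trans_eq (by simp)))
  exact intervalIntegral.integral_mono_interval le_rfl hT hU.1 (.of_forall fun _ => norm_nonneg _)
    (ch.norm.intervalIntegrable _ _)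

end Pool.Agent.H.MP_8bcfe8_an
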