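import Pool.Agent.H.MP_8bcfe8_an.Bdd

open Filter Topology Real MeasureTheory Set RealInnerProductSpace Pool.Agent.H.MP_38ba9c_an

namespace Pool.Agent.H.MP_8bcfe8_an

variable {H : Type*} [NormedAddCommGroup H] [InnerProductSpace ℝ H] [CompleteSpace H]
variable {L : H →L[ℝ] H} {c β δ K : ℝ} {k h k' h' : ℝ → H} {y : H}

/-- The integral of the norm of h over the half line is at most K. -/
def Bd (h : ℝ → H) (K : ℝ) : Prop := ∀ T, 0 ≤ T → ∫ t in (0 : ℝ)..T, ‖h t‖ ≤ K

omit [CompleteSpace H] in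
lemma hom (O : Ok L β c δ) (S : Cl L c 0 k h) (k0 : k 0 = 0) {t : ℝ} (ht : 0 ≤ t) :
    ‖h t‖ ≤ 2 * ‖h 0‖ * exp (-(δ / 8) * t) ∧ β * ‖k t‖ ^ 2 ≤ (‖h 0‖ * exp (-(δ / 8) * t)) ^ 2 ∧
      ⟪L (k t), k t⟫ ≤ (‖h 0‖ * exp (-(δ / 8) * t)) ^ 2 := by
  simpa using vel O S k0 (C := 0) (ρ := δ / 8) (by linarith) (by simp) ht

lemma step {ε : ℝ} (hε : 0 ≤ ε) (O : Ok L β c δ) (O' : Ok L β (c + ε) δ) (S : Cl L c 0 k h)
    (k0 : k 0 = 0) (h0 : h 0 = y) (S' : Cl L (c + ε) 0 k' h') (k0' : k' 0 = 0) (h0' : h' 0 = y)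
    (hK : Bd h K) : Bd h' (K + ε ^ 2 * (256 * ‖y‖ / δ ^ 3)) := by
  have δ0 := O.δ0
  have β0 := O.β0
  obtain ⟨a, ha⟩ : ∃ a, c + ε = 2 * a := ⟨(c + ε) / 2, by ring⟩
  have a0 : 0 < a := by linarith [O'.d1]
  have ch := S.cp
  have ch' := S'.cp
  have dk := S'.dw
  have dh : ∀ t, HasDerivAt h' (-((2 * a) • h' t) - L (k' t)) t := fun t => by
    simpa [ha] using S'.dp t
  have c1 : Continuous fun s => (exp (a * s) * (a * s - 1)) • h' s := by fun_prop
  have ee : ∀ t, exp (-a * t) * exp (a * t) = 1 := fun t => by rw [← exp_add]; simp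
  set I : ℝ → H := fun t => exp (-a * t) • ∫ s in (0 : ℝ)..t, (exp (a * s) * (a * s - 1)) • h' s
    with hI
  have I0 : I 0 = 0 := by simp [hI]
  have dI : ∀ t, HasDerivAt I ((a * t - 1) • h' t - a • I t) t := fun t => by
    refine HasDerivAt.congr_deriv
      ((dexp (-a) t).fun_smul (c1.integral_hasStrictDerivAt 0 t).hasDerivAt) ?_
    rw [smul_smul, ← mul_assoc, ee, one_mul]
    simp only [hI]
    module
  have dL : ∀ {x : ℝ → H} {x' : H} {t : ℝ}, HasDerivAt x x' t →
      HasDerivAt (fun s => L (x s)) (L x') t := fun hx => L.hasFDerivAt.comp_hasDerivAt _ hx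
  have hΨ : ∀ t, L (I t) + L (k' t) - (a * t) • L (k' t) - (a ^ 2 * t) • h' t - a ^ 2 • I t = 0 := by
    intro t
    have d : ∀ t, HasDerivAt (fun t => exp (a * t) • (L (I t) + L (k' t) - (a * t) • L (k' t) -
        (a ^ 2 * t) • h' t - a ^ 2 • I t)) 0 t := fun t => by
      refine HasDerivAt.congr_deriv ((dexp a t).fun_smul ((((((dL (dI t)).fun_add
        (dL (dk t))).fun_sub (((hasDerivAt_id' t).const_mul a).fun_smul (dL (dk t)))).fun_sub
        (((hasDerivAt_id' t).const_mul (a ^ 2)).fun_smul (dh t))).fun_sub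
        ((dI t).fun_const_smul (a ^ 2))))) ?_
      simp only [map_sub, map_smul]
      module
    have := is_const_of_deriv_eq_zero (fun t => (d t).differentiableAt) (fun t => (d t).deriv) t 0
    simpa [I0, k0', (exp_pos _).ne'] using this
  set Y : ℝ → H := fun t => (1 / (2 * a)) • (I t + k' t) with hY
  set Z : ℝ → H := fun t => (t / 2) • h' t - (1 / 2 : ℝ) • I t with hZ
  have SY : Cl L (c + ε) h' Y Z := ⟨ch', fun t => by
    refine HasDerivAt.congr_deriv (((dI t).fun_add (dk t)).fun_const_smul _) ?_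
    simp only [hZ]
    match_scalars <;> field_simp <;> ring, fun t => by
    refine HasDerivAt.congr_deriv ((((hasDerivAt_id' t).div_const 2).fun_smul (dh t)).fun_sub
      ((dI t).fun_const_smul (1 / 2 : ℝ))) ?_
    have : L (I t) = (a * t) • L (k' t) + (a ^ 2 * t) • h' t + a ^ 2 • I t - L (k' t) := by
      rw [← sub_eq_zero, ← hΨ t]; abel
    simp only [hY, hZ, ha, map_smul, map_add, this]
    match_scalars <;> field_simp <;> ring⟩
  have Y0 : Y 0 = 0 := by simp [hY, I0, k0']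
  have Z0 : Z 0 = 0 := by simp [hZ, I0]
  have SD : Cl L c (fun t => -(ε ^ 2) • Z t) (fun t => k' t + ε • Y t - k t)
      fun t => h' t + ε • Z t - h t := ⟨SY.cp.const_smul _, fun t =>
    ((dk t).fun_add ((SY.dw t).fun_const_smul ε)).fun_sub (S.dw t), fun t => by
    refine HasDerivAt.congr_deriv (((S'.dp t).fun_add ((SY.dp t).fun_const_smul ε)).fun_sub
      (S.dp t)) ?_
    simp only [map_sub, map_add, map_smul, Pi.zero_apply]
    module⟩
  have b1 : ∀ t, 0 ≤ t → ‖Z t‖ ≤ 8 * ‖y‖ / δ * exp (-(δ / 8) * t) := fun t ht => by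
    have := (vel O' SY Y0 (C := 2 * ‖y‖) (ρ := δ / 8) (by linarith)
      (fun s hs => h0' ▸ (hom O' S' k0' hs).1) ht).1
    rw [Z0] at this
    exact this.trans_eq (by simp; ring)
  have b2 : ∀ t, 0 ≤ t → ‖h' t + ε • Z t - h t‖ ≤
      ε ^ 2 * (32 * ‖y‖ / δ ^ 2) * exp (-(δ / 8) * t) := fun t ht => by
    have := (vel O SD (by simp [k0, k0', Y0]) (C := ε ^ 2 * (8 * ‖y‖ / δ)) (ρ := δ / 8)
      (by linarith) (fun s hs => by
        rw [norm_smul, norm_neg, Real.norm_of_nonneg (sq_nonneg ε), mul_assoc]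
        exact mul_le_mul_of_nonneg_left (b1 s hs) (sq_nonneg ε)) ht).1
    refine this.trans_eq ?_
    simp only [Z0, h0, h0', smul_zero, add_zero, sub_self, norm_zero]
    ring
  have cn : Continuous fun s => ‖h' s‖ := ch'.norm
  have c2 : Continuous fun s => exp (a * s) * (a * s - 1) * ‖h' s‖ := by fun_prop
  have main : ∀ T, 0 ≤ T → ∫ t in (0 : ℝ)..T, ‖h' t‖ ≤
      K + ε ^ 2 * (256 * ‖y‖ / δ ^ 3) + ε / (2 * a) * ‖k' T‖ := fun T hT => by
    set b : ℝ → ℝ := fun t => exp (-a * t) * (((∫ s in (0 : ℝ)..T, ‖h' s‖) + ‖k' T‖) +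
      ∫ s in (0 : ℝ)..t, exp (a * s) * (a * s - 1) * ‖h' s‖) with hb
    have db : ∀ t, HasDerivAt b ((a * t - 1) * ‖h' t‖ - a * b t) t := fun t => by
      refine HasDerivAt.congr_deriv ((dexp (-a) t).fun_mul
        ((c2.integral_hasStrictDerivAt 0 t).hasDerivAt.const_add _)) ?_
      rw [← mul_assoc (exp (-a * t)), ← mul_assoc (exp (-a * t)), ee]
      simp only [hb]
      ring
    have cb : Continuous b := continuous_iff_continuousAt.2 fun t => (db t).continuousAt
    have Ib : ∀ t ∈ Icc 0 T, ‖I t‖ ≤ b t := fun t ht => by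
      simp only [hI, hb]
      rw [norm_smul, Real.norm_of_nonneg (exp_pos _).le]
      refine mul_le_mul_of_nonneg_left ?_ (exp_pos _).le
      have i := fun a b => ch'.intervalIntegrable (μ := volume) a b
      have j := fun a b => cn.intervalIntegrable (μ := volume) a b
      have e1 := intervalIntegral.integral_eq_sub_of_hasDerivAt (fun s _ => dk s) (i 0 T)
      have e2 := intervalIntegral.integral_add (c1.intervalIntegrable (μ := volume) 0 t) (i 0 t)
      have e3 := intervalIntegral.integral_add (c2.intervalIntegrable (μ := volume) 0 t) (j 0 t)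
      have e4 : ∫ s in (0 : ℝ)..t, (exp (a * s) * (a * s - 1)) • h' s =
          (∫ s in (0 : ℝ)..t, ((exp (a * s) * (a * s - 1)) • h' s + h' s)) +
          (∫ s in t..T, h' s) - k' T := by
        rw [e2, add_assoc, intervalIntegral.integral_add_adjacent_intervals (i 0 t) (i t T), e1, k0']
        abel
      have n1 : ‖∫ s in (0 : ℝ)..t, ((exp (a * s) * (a * s - 1)) • h' s + h' s)‖ ≤
          ∫ s in (0 : ℝ)..t, (exp (a * s) * (a * s - 1) * ‖h' s‖ + ‖h' s‖) := by
        refine (intervalIntegral.norm_integral_le_integral_norm ht.1).trans_eq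
          (intervalIntegral.integral_congr fun s _ => ?_)
        have : 0 ≤ exp (a * s) * (a * s - 1) + 1 := by
          nlinarith [ee s, mul_le_mul_of_nonneg_right (add_one_le_exp (-a * s)) (exp_pos (a * s)).le]
        show ‖(exp (a * s) * (a * s - 1)) • h' s + h' s‖ = _
        rw [show (exp (a * s) * (a * s - 1)) • h' s + h' s = (exp (a * s) * (a * s - 1) + 1) • h' s by
          module, norm_smul, Real.norm_of_nonneg this, add_one_mul]
      have n2 := intervalIntegral.norm_integral_le_integral_norm (f := h') (μ := volume) ht.2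
      have e5 := intervalIntegral.integral_add_adjacent_intervals (j 0 t) (j t T)
      rw [e4]
      refine (norm_sub_le _ _).trans ((add_le_add_left (norm_add_le _ _) _).trans ?_)
      linarith
    have := intLe (G := fun t => ‖h' t‖ - ‖h t‖) (Γ := fun t => -(ε ^ 2 * (256 * ‖y‖ / δ ^ 3) *
      exp (-(δ / 8) * t)) - ε / (2 * a) * (b t + ∫ s in (0 : ℝ)..t, ‖h' s‖))
      (g := fun t => ε ^ 2 * (32 * ‖y‖ / δ ^ 2) * exp (-(δ / 8) * t) + ε / 2 * (b t - t * ‖h' t‖))
      hT (by fun_prop) (by fun_prop) (fun t => HasDerivAt.congr_deriv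
        (((dexp _ t).const_mul _).fun_neg.fun_sub (((db t).fun_add
          (cn.integral_hasStrictDerivAt 0 t).hasDerivAt).const_mul _)) (by field_simp; ring))
      fun t ht => by
        have e1 : (1 + ε * t / 2) • h' t = h' t + ε • Z t - h t + h t + (ε / 2) • I t := by
          simp only [hZ]; module
        have e2 := norm_add₃_le (a := h' t + ε • Z t - h t) (b := h t) (c := (ε / 2) • I t)
        have t0 := ht.1
        rw [← e1, norm_smul, norm_smul, Real.norm_of_nonneg (by positivity),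
          Real.norm_of_nonneg (by positivity)] at e2
        nlinarith [b2 t t0, mul_le_mul_of_nonneg_left (Ib t ht) hε]
    rw [intervalIntegral.integral_sub (cn.intervalIntegrable _ _)
      (ch.norm.intervalIntegrable _ _)] at this
    have e0 : b 0 = (∫ s in (0 : ℝ)..T, ‖h' s‖) + ‖k' T‖ := by simp [hb]
    simp only [mul_zero, exp_zero, intervalIntegral.integral_same, e0] at this
    have p1 : 0 ≤ ε / (2 * a) * b T :=
      mul_nonneg (by positivity) ((norm_nonneg _).trans (Ib T ⟨hT, le_rfl⟩))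
    have p2 : 0 ≤ ε ^ 2 * (256 * ‖y‖ / δ ^ 3) * exp (-(δ / 8) * T) := by positivity
    linarith [hK T hT]
  have lim : Tendsto (fun T => ‖k' T‖) atTop (𝓝 0) := by
    have t0 : Tendsto (fun t => ‖y‖ / √β * exp (-(δ / 8 * t))) atTop (𝓝 0) := by
      simpa using (tendsto_exp_neg_atTop_nhds_zero.comp
        (tendsto_id.const_mul_atTop (by positivity : 0 < δ / 8))).const_mul (‖y‖ / √β)
    refine squeeze_zero' (.of_forall fun _ => norm_nonneg _)
      ((eventually_ge_atTop 0).mono fun t ht => ?_) t0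
    rw [div_mul_eq_mul_div, le_div_iff₀ (sqrt_pos.2 β0), ← neg_mul, ← h0']
    refine (abs_le_of_sq_le_sq' ?_ (by positivity)).2
    rw [mul_pow, sq_sqrt β0.le, mul_comm]
    exact (hom O' S' k0' ht).2.1
  intro T hT
  have l2 := (lim.const_mul (ε / (2 * a))).const_add (K + ε ^ 2 * (256 * ‖y‖ / δ ^ 3))
  rw [mul_zero, add_zero] at l2
  refine ge_of_tendsto l2 ((eventually_ge_atTop T).mono fun U hU => le_trans ?_ (main U (hT.trans hU)))
  exact intervalIntegral.integral_mono_interval le_rfl hT hU (.of_forall fun _ => norm_nonneg _)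
    (cn.intervalIntegrable _ _)

lemma mono {c' : ℝ} (hc : c ≤ c') (O : ∀ x ∈ Icc c c', Ok L β x δ) (S : Cl L c 0 k h)
    (k0 : k 0 = 0) (h0 : h 0 = y) (S' : Cl L c' 0 k' h') (k0' : k' 0 = 0) (h0' : h' 0 = y)
    (hK : Bd h K) : Bd h' K := by
  have Oc := O c ⟨le_rfl, hc⟩
  have key : ∀ ε, 0 ≤ ε → ∀ j : ℕ, c + j * ε ≤ c' → ∀ k h, Cl L (c + j * ε) 0 k h → k 0 = 0 →
      h 0 = y → Bd h (K + j * (ε ^ 2 * (256 * ‖y‖ / δ ^ 3))) := fun ε hε j => by
    induction j with
    | zero =>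
      intro _ k1 h1 S1 e1 e2
      simpa using step le_rfl Oc (by simpa using Oc) S k0 h0 (by simpa using S1) e1 e2 hK
    | succ j ih =>
      intro hj k1 h1 S1 e1 e2
      rw [Nat.cast_succ, add_one_mul, ← add_assoc] at hj S1 ⊢
      have p : 0 ≤ j * ε := by positivity
      obtain ⟨k2, h2, S2, e3, e4⟩ := exist L (c + j * ε) (G := 0) continuous_zero y
      exact step hε (O _ ⟨by linarith, by linarith⟩) (O _ ⟨by linarith, hj⟩) S2 e3 e4 S1 e1 e2
        (ih (by linarith) _ _ S2 e3 e4)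
  intro T hT
  have lim := (tendsto_const_div_atTop_nhds_zero_nat
    ((c' - c) ^ 2 * (256 * ‖y‖ / δ ^ 3))).const_add K
  rw [add_zero] at lim
  refine ge_of_tendsto lim ((eventually_gt_atTop 0).mono fun n hn => ?_)
  have n0 : (0 : ℝ) < n := Nat.cast_pos.2 hn
  have e : c + n * ((c' - c) / n) = c' := by field_simp; ring
  refine (key _ (div_nonneg (sub_nonneg.2 hc) n0.le) n e.le k' h' (by rwa [e]) k0' h0' T
    hT).trans_eq ?_
  field_simp

end Pool.Agent.H.MP_8bcfe8_an
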