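import Pool.Agent.H.MP_8bcfe8_an.Mono

open Filter Topology Real MeasureTheory Set RealInnerProductSpace Pool.Agent.H.MP_38ba9c_an

namespace Pool.Agent.H.MP_8bcfe8_an

variable {H : Type*} [NormedAddCommGroup H] [InnerProductSpace ℝ H]

/-- B is the bounded inverse of a coercive self-adjoint operator. -/
structure Inv (B : H →L[ℝ] H) (b : ℝ) : Prop where
  sym : ∀ x y, ⟪B x, y⟫ = ⟪x, B y⟫
  co : ∀ x, b * ‖B x‖ ^ 2 ≤ ⟪x, B x⟫
  b0 : 0 < b
  dense : DenseRange B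

lemma inv [CompleteSpace H] {A : H →ₗ.[ℝ] H} (hA : IsSelfAdjoint A) {b : ℝ} (hb : 0 < b)
    (co : ∀ x : A.domain, b * ‖(x : H)‖ ^ 2 ≤ ⟪A x, x⟫) :
    ∃ B : H →L[ℝ] H, Inv B b ∧ (∀ y, ∃ x : A.domain, A x = y ∧ B y = x) ∧
      ∀ x : A.domain, B (A x) = x := by
  have hd := hA.dense_domain
  have hA' := LinearPMap.isSelfAdjoint_def.1 hA
  have sym : A.IsFormalAdjoint A := by
    have := LinearPMap.adjoint_isFormalAdjoint hd
    rwa [hA'] at this
  have low : ∀ x : A.domain, ‖(x : H)‖ ≤ 1 / b * ‖A x‖ := fun x => by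
    rw [one_div, le_inv_mul_iff₀ hb]
    rcases (norm_nonneg (x : H)).eq_or_lt with h | h
    · rw [← h, mul_zero]; exact norm_nonneg _
    · nlinarith [(co x).trans (real_inner_le_norm _ _)]
  have inj : Function.Injective A.toFun := (injective_iff_map_eq_zero _).2 fun x hx => by
    have := low x
    rw [show A x = 0 from hx, norm_zero, mul_zero] at this
    exact Subtype.ext (norm_le_zero_iff.1 this)
  have sur : Function.Surjective A.toFun := fun y => by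
    set e := LinearEquiv.ofInjective A.toFun inj
    obtain ⟨g, hg, -⟩ := exists_extension_norm_eq (LinearMap.range A.toFun) (LinearMap.mkContinuous
      (innerₛₗ ℝ y ∘ₗ A.domain.subtype ∘ₗ e.symm.toLinearMap) (‖y‖ * (1 / b)) fun r => by
        obtain ⟨x, rfl⟩ := e.surjective r
        simp only [LinearMap.comp_apply, LinearEquiv.coe_coe, e.symm_apply_apply]
        rw [mul_assoc]
        exact (abs_real_inner_le_norm _ _).trans
          (mul_le_mul_of_nonneg_left (low x) (norm_nonneg _)))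
    have h1 : ∀ x : A.domain, ⟪y, x⟫ = ⟪(InnerProductSpace.toDual ℝ H).symm g, A x⟫ := fun x => by
      rw [InnerProductSpace.toDual_symm_apply]
      exact Eq.trans (by simp) (hg (e x)).symm
    have h2 := LinearPMap.mem_adjoint_domain_of_exists (T := A) _ ⟨y, h1⟩
    have h3 := LinearPMap.adjoint_apply_eq hd ⟨_, h2⟩ h1
    revert h2
    rw [hA']
    exact fun h2 h3 => ⟨_, h3⟩
  set e := LinearEquiv.ofBijective A.toFun ⟨inj, sur⟩
  set B := LinearMap.mkContinuous (A.domain.subtype ∘ₗ e.symm.toLinearMap) (1 / b) fun r => by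
    obtain ⟨x, rfl⟩ := e.surjective r
    simp only [LinearMap.comp_apply, LinearEquiv.coe_coe, e.symm_apply_apply]
    exact low x
  have hB : ∀ x : A.domain, B (A x) = x := fun x => congrArg Subtype.val (e.symm_apply_apply x)
  have hS : ∀ y, ∃ x : A.domain, A x = y ∧ B y = x := fun y => by
    obtain ⟨x, rfl⟩ := sur y
    exact ⟨x, rfl, hB x⟩
  refine ⟨B, ⟨fun x y => ?_, fun x => ?_, hb, hd.mono fun x hx => ⟨_, hB ⟨x, hx⟩⟩⟩, hS, hB⟩
  · obtain ⟨p, rfl, h1⟩ := hS x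
    obtain ⟨q, rfl, h2⟩ := hS y
    rw [h1, h2, sym]
  · obtain ⟨p, rfl, h1⟩ := hS x
    rw [h1]
    exact co p

/-- L is the inverse of B + δ. -/
structure Res (B L : H →L[ℝ] H) (δ β : ℝ) : Prop where
  cm : ∀ x, L (B x) = B (L x)
  r : ∀ x, B (L x) = x - δ • L x
  sym : ∀ x y, ⟪L x, y⟫ = ⟪x, L y⟫
  n1 : ∀ x, ‖L x‖ ≤ 1 / δ * ‖x‖
  n2 : ∀ x, ‖B (L x)‖ ≤ ‖x‖
  co : ∀ x, β * ‖x‖ ^ 2 ≤ ⟪L x, x⟫

variable {B L : H →L[ℝ] H} {b c K : ℝ}

lemma res [CompleteSpace H] (I : Inv B b) {δ : ℝ} (δ0 : 0 < δ) (δ1 : δ ≤ 1) :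
    ∃ L, Res B L δ (b / (1 + 2 * b)) := by
  have b0 := I.b0
  have pos : ∀ x, 0 ≤ ⟪x, B x⟫ := fun x => le_trans (by positivity) (I.co x)
  obtain ⟨U, hU⟩ := ContinuousLinearMap.isUnit_of_forall_le_norm_inner_map (B + δ • 1)
    (c := ⟨δ, δ0.le⟩) δ0 fun x => le_trans (by
      show ‖x‖ ^ 2 * δ ≤ ⟪B x + δ • x, x⟫
      rw [inner_add_left, real_inner_smul_left, real_inner_self_eq_norm_sq, I.sym]
      linarith [pos x]) (le_abs_self _)
  have h1 : ∀ x, B (U.inv x) + δ • U.inv x = x := fun x => by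
    simpa [hU] using congrArg (fun T : H →L[ℝ] H => T x) U.val_inv
  have h2 : ∀ x, U.inv (B x) + δ • U.inv x = x := fun x => by
    simpa [hU] using congrArg (fun T : H →L[ℝ] H => T x) U.inv_val
  have h3 : ∀ x, ‖x‖ ^ 2 = ‖B (U.inv x)‖ ^ 2 + 2 * (δ * ⟪U.inv x, B (U.inv x)⟫) +
      (δ * ‖U.inv x‖) ^ 2 := fun x => by
    conv_lhs => rw [← h1 x]
    rw [norm_add_sq_real, real_inner_smul_right, real_inner_comm, norm_smul,
      Real.norm_of_nonneg δ0.le]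
  refine ⟨U.inv, fun x => by rw [eq_sub_of_add_eq (h1 x), eq_sub_of_add_eq (h2 x)],
    fun x => eq_sub_of_add_eq (h1 x), fun x y => ?_, fun x => ?_, fun x => ?_, fun x => ?_⟩
  · conv_lhs => rw [← h1 y]
    conv_rhs => rw [← h1 x]
    rw [inner_add_left, inner_add_right, I.sym, real_inner_smul_left, real_inner_smul_right]
  · rw [one_div, le_inv_mul_iff₀ δ0]
    refine (abs_le_of_sq_le_sq' ?_ (norm_nonneg _)).2
    nlinarith [h3 x, mul_nonneg δ0.le (pos (U.inv x))]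
  · refine (abs_le_of_sq_le_sq' ?_ (norm_nonneg _)).2
    nlinarith [h3 x, mul_nonneg δ0.le (pos (U.inv x))]
  · have h4 : ⟪U.inv x, x⟫ = ⟪U.inv x, B (U.inv x)⟫ + δ * ‖U.inv x‖ ^ 2 := by
      conv_lhs => enter [3]; rw [← h1 x]
      rw [inner_add_right, real_inner_smul_right, real_inner_self_eq_norm_sq]
    rw [div_mul_eq_mul_div, div_le_iff₀ (by positivity), h4, h3 x]
    have p1 := pos (U.inv x)
    have p2 : 0 ≤ δ * ‖U.inv x‖ ^ 2 := by positivity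
    nlinarith [I.co (U.inv x), mul_nonneg (mul_nonneg b0.le (sub_nonneg.2 δ1)) p1,
      mul_nonneg (mul_nonneg b0.le (sub_nonneg.2 δ1)) p2, mul_nonneg b0.le p2]

lemma rate {β c c' : ℝ} (β0 : 0 < β) (c0 : 0 < c) :
    ∃ r, 0 < r ∧ ∀ x ∈ Icc c c', ∀ {L : H →L[ℝ] H} {δ}, Res B L δ β → Ok L β x r := by
  have r0 : 0 < min (2 * c / 3) (c * β / (β + c' ^ 2)) := by positivity
  refine ⟨_, r0, fun x hx L δ R => ⟨R.sym, R.co, β0, r0, ?_, ?_⟩⟩
  · linarith [min_le_left (2 * c / 3) (c * β / (β + c' ^ 2)), hx.1]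
  · have h1 := (le_div_iff₀ (by positivity)).1 (min_le_right (2 * c / 3) (c * β / (β + c' ^ 2)))
    have h2 : x ^ 2 ≤ c' ^ 2 := pow_le_pow_left₀ (c0.le.trans hx.1) hx.2 2
    nlinarith [mul_le_mul_of_nonneg_left h2 r0.le, mul_le_mul_of_nonneg_right hx.1 β0.le]

/-- The kernels of the regularised operators have integral at most K on the range of B ^ 2. -/
def Good (B : H →L[ℝ] H) (β c K : ℝ) : Prop :=
  ∀ x η, 0 < η → ∃ δ0, 0 < δ0 ∧ ∀ δ L k h, 0 < δ → δ ≤ δ0 → Res B L δ β → Cl L c 0 k h →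
    k 0 = 0 → h 0 = B (B x) → Bd h (K * ‖B (B x)‖ + η)

lemma Good.mono [CompleteSpace H] {β c' : ℝ} (β0 : 0 < β) (c0 : 0 < c) (hc : c ≤ c')
    (G : Good B β c K) : Good B β c' K := fun x η hη => by
  obtain ⟨δ0, h0, h1⟩ := G x η hη
  obtain ⟨r, -, hr⟩ := rate (B := B) (c' := c') β0 c0
  refine ⟨δ0, h0, fun δ L k' h' d0 d1 R S' e1 e2 => ?_⟩
  obtain ⟨k, h, S, e3, e4⟩ := exist L c (G := 0) continuous_zero (B (B x))
  exact MP_8bcfe8_an.mono hc (fun x hx => hr x hx R) S e3 e4 S' e1 e2 (h1 δ L k h d0 d1 R S e3 e4)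

lemma crude {β : ℝ} (β0 : 0 < β) (c0 : 0 < c) : ∃ K, 0 ≤ K ∧ Good B β c K := by
  obtain ⟨r, r0, hr⟩ := rate (B := B) (c' := c) β0 c0
  refine ⟨16 / r, by positivity, fun x η hη => ⟨1, one_pos, fun δ L k h _ _ R S e1 e2 T hT => ?_⟩⟩
  have := intLe (G := fun t => ‖h t‖) (Γ := fun t => -(16 / r * ‖h 0‖ * exp (-(r / 8) * t)))
    (g := fun t => 2 * ‖h 0‖ * exp (-(r / 8) * t)) hT S.cp.norm (by fun_prop)
    (fun t => HasDerivAt.congr_deriv ((dexp _ t).const_mul _).fun_neg (by field_simp; ring))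
    fun t ht => (hom (hr c ⟨le_rfl, le_rfl⟩ R) S e1 ht.1).1
  have p : 0 ≤ 16 / r * ‖h 0‖ * exp (-(r / 8) * T) := by positivity
  simp only [mul_zero, exp_zero] at this
  rw [← e2]
  linarith

lemma small (X : ℝ) {η : ℝ} (hη : 0 < η) :
    ∃ e, 0 < e ∧ e ≤ 1 ∧ ∀ d, 0 ≤ d → d ≤ e → d * X ≤ η := by
  refine ⟨min 1 (η / (|X| + 1)), by positivity, min_le_left _ _, fun d d0 hd => ?_⟩
  have := (le_div_iff₀ (by positivity)).1 (hd.trans (min_le_right _ _))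
  nlinarith [mul_le_mul_of_nonneg_left (le_abs_self X) d0]

lemma Cl.map {δ β : ℝ} {k h : ℝ → H} (R : Res B L δ β) (S : Cl L c 0 k h) :
    Cl L c 0 (fun t => B (k t)) fun t => B (h t) :=
  ⟨continuous_zero, fun t => B.hasFDerivAt.comp_hasDerivAt t (S.dw t), fun t =>
    HasDerivAt.congr_deriv (B.hasFDerivAt.comp_hasDerivAt t (S.dp t)) (by simp [R.cm])⟩

end Pool.Agent.H.MP_8bcfe8_an
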